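import Pool.Agent.Work.MP_3181e1_lc.G.Luzin
import Pool.Agent.Work.MP_3181e1_lc.Interface

/-! The poset of the group version satisfies the interface. -/

namespace Pool.Agent.Work.MP_3181e1_lc.Grp

open Cardinal Atom

variable {X T J : Type} [LinearOrder J] {𝒟 : Data X T J}

namespace Data

def dedge (d : Bool) (η : J) (u v : V X) : Atom X J :=
  cond d (edge η u v) (edge η v u)

variable (𝒟) in
def dAllowed (d : Bool) (p : Set (Atom X J)) (η : J) (u v : V X) : Prop :=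
  cond d (𝒟.Allowed p η u v) (𝒟.Allowed p η v u)

theorem subset_reset {p q : Set (Atom X J)} (h : p ⊆ q) (η : J) : p ⊆ Data.reset p q η :=
  fun _ ha => ⟨h ha, Or.inl ha⟩

theorem Valid.extend {p : Set (Atom X J)} (hp : 𝒟.Valid p) (d : Bool) (η : J) (y : V X)
    (hfind : ∀ q, 𝒟.Valid q → p ⊆ q → ∀ (N : ℕ) (t : Seq), ∃ r, 𝒟.Valid r ∧ q ⊆ r ∧ ∃ z,
      (∀ x, Cons x r → agree N (ev x z) t) ∧ 𝒟.dAllowed d (Data.reset q r η) η y z) :
    ∃ r, 𝒟.Valid r ∧ p ⊆ r ∧ ∃ z, dedge d η y z ∈ r := by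
  by_cases h : ∃ v, dedge d η y v ∈ p
  · exact ⟨p, hp, le_rfl, h⟩
  obtain ⟨q, hq, hpq, he, N, t, ht⟩ := hp.target (fun u v => dedge d η u v ∈ p)
    (fun u v h => by
      cases d
      · exact ⟨sup_right h, sup_left h⟩
      · exact ⟨sup_left h, sup_right h⟩)
    (fun x hx u v u' v' h h' => by
      cases d
      · exact ((hp.iso x hx).wi h h').swap
      · exact (hp.iso x hx).wi h h')
    y (fun v hv => h ⟨v, hv⟩)
  obtain ⟨r, hr, hqr, z, hz, ha⟩ := hfind q hq hpq N t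
  have hr' := hq.reset hr hqr η
  have hs := subset_reset hqr η
  have key : ∀ x, Cons x (Data.reset q r η) → ∀ u v, dedge d η u v ∈ Data.reset q r η →
      Sep (ev x y) (ev x z) (ev x u) (ev x v) := by
    intro x hx u v huv
    refine ht x (hx.mono hs) (ev x z) (hz x (cons_of_reset hx)) u v ?_
    cases d
    · exact he _ _ _ (huv.2.resolve_right fun h => lt_irrefl η (h _ _ _ rfl))
    · exact he _ _ _ (huv.2.resolve_right fun h => lt_irrefl η (h _ _ _ rfl))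
  refine ⟨insert (dedge d η y z) (Data.reset q r η), ?_,
    (hpq.trans hs).trans (Set.subset_insert _ _), z, Set.mem_insert _ _⟩
  cases d
  · exact hr'.add_edge (fun x hx u v h => (key x hx v u h).swap) ha
  · exact hr'.add_edge (fun x hx u v h => key x hx u v h) ha

theorem exists_fresh {Y : Type} {f : ℕ → Y} (hf : Function.Injective f) {s : Set Y}
    (hs : s.Finite) : ∃ n, f n ∉ s := by
  by_contra h
  push Not at h
  exact Set.infinite_of_injective_forall_mem hf h hs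

theorem Valid.extend_out {p : Set (Atom X J)} (hp : 𝒟.Valid p) (d : Bool) (η : J)
    (l : V X) (hl : ¬ Sup l (𝒟.A η)) (hlow : ∀ g ∈ 𝒟.A η, Sup (𝒟.par g) (𝒟.A η)) :
    ∃ r, 𝒟.Valid r ∧ p ⊆ r ∧ ∃ z, dedge d η l z ∈ r := by
  refine hp.extend d η _ fun q hq _ N t => ?_
  obtain ⟨n, hn⟩ := exists_fresh (f := fun n => 𝒟.up η l d n)
    (fun a b e => (𝒟.nd_inj _ _ _ _ _ _ _ _ e).2.2.1) (pts_finite hq.fin)
  obtain ⟨r, hr, hqr, hb⟩ := hq.add_point hn t N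
  have h2 : ¬ Sup (sg (𝒟.up η l d n)) (𝒟.A η) := fun h => hl (by
    have := hlow _ (sup_sg.1 h)
    rwa [par_up] at this)
  refine ⟨r, hr, hqr, _, hb, ?_⟩
  cases d
  · exact Or.inl ⟨h2, hl, Or.inr ⟨n, rfl⟩⟩
  · exact Or.inl ⟨hl, h2, Or.inl ⟨n, rfl⟩⟩

variable (𝒟) in
/-- The forcing poset. -/
structure P : Type where
  val : Set (Atom X J)
  prop : 𝒟.Valid val

theorem P.val_injective : Function.Injective (P.val (𝒟 := 𝒟)) := by
  rintro ⟨a, _⟩ ⟨b, _⟩ h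
  cases h; rfl

instance : Preorder 𝒟.P where
  le q p := p.1 ⊆ q.1
  le_refl _ := le_rfl
  le_trans _ _ _ h h' := Set.Subset.trans h' h

def bitP (p : 𝒟.P) (i : V X) (n : ℕ) (b : Bool) : Prop := ∀ x, Cons x p.1 → ev x i n = b

theorem agreeP {p : 𝒟.P} {i : V X} {n : ℕ} {t : Seq} :
    Agree bitP p i n t ↔ ∀ x, Cons x p.1 → agree n (ev x i) t :=
  ⟨fun h x hx m hm => h m hm x hx, fun h m hm x hx => h x hx m hm⟩

theorem cccP [Nonempty X] (hA : ∀ η, (𝒟.A η).Countable) (U : Set 𝒟.P) :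
    ∃ U', U' ⊆ U ∧ U'.Countable ∧ ∀ p ∈ U, ∃ p' ∈ U', ∃ r, r ≤ p ∧ r ≤ p' := by
  obtain ⟨B, h1, h2, h3⟩ := ccc hA (P.val '' U) (by rintro _ ⟨p, _, rfl⟩; exact p.2)
  refine ⟨{p | p.1 ∈ B}, fun p hp => ?_, h2.preimage_of_injOn P.val_injective.injOn,
    fun p hp => ?_⟩
  · obtain ⟨q, hq, e⟩ := h1 hp
    rwa [← P.val_injective e]
  · obtain ⟨q, hq, u, hu, h4, h5⟩ := h3 p.1 ⟨p, hp, rfl⟩
    obtain ⟨q', -, rfl⟩ := h1 hq
    exact ⟨q', hq, ⟨u, hu⟩, h4, h5⟩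

/-- `q` decides `i ∈ D` and `j ∈ E` in the same way. -/
def Lab (D E : V X → 𝒟.P → Prop) (i j : V X) (q : 𝒟.P) : Prop :=
  (D i q ∧ E j q) ∨ ((∀ r, r ≤ q → ¬ D i r) ∧ ∀ r, r ≤ q → ¬ E j r)

theorem Lab.swap {D E : V X → 𝒟.P → Prop} {i j q} (h : Lab D E i j q) : Lab E D j i q :=
  h.imp And.symm And.symm

theorem find_partner {p : 𝒟.P} {D E : V X → 𝒟.P → Prop} {K : Set (V X)} {f : ℕ → X}
    (hf : Function.Injective f) (hfK : ∀ n, sg (f n) ∉ K) (hD : ∀ i q r, r ≤ q → D i q → D i r)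
    (hEK : ∀ i q, q ≤ p → E i q → i ∈ K)
    (hE : ∀ q n t, q ≤ p → ∃ r, r ≤ q ∧ ∃ j, E j r ∧ Agree bitP r j n t)
    (i : V X) (q : 𝒟.P) (hq : q ≤ p) (N : ℕ) (t : Seq) :
    ∃ r, r ≤ q ∧ ∃ j, (j ∈ K ∨ ∃ n, j = sg (f n)) ∧ Agree bitP r j N t ∧ Lab D E i j r := by
  by_cases h : ∃ r, r ≤ q ∧ D i r
  · obtain ⟨r, hr, hi⟩ := h
    obtain ⟨s, hs, j, hj, ha⟩ := hE r N t (hr.trans hq)
    exact ⟨s, hs.trans hr, j, Or.inl (hEK j s (hs.trans (hr.trans hq)) hj), ha,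
      Or.inl ⟨hD i r s hs hi, hj⟩⟩
  · obtain ⟨n, hn⟩ := exists_fresh hf (pts_finite q.2.fin)
    obtain ⟨r, hr, hqr, hb⟩ := q.2.add_point hn t N
    have hle : (⟨r, hr⟩ : 𝒟.P) ≤ q := hqr
    exact ⟨⟨r, hr⟩, hle, sg (f n), Or.inr ⟨n, rfl⟩, agreeP.2 hb,
      Or.inr ⟨fun s hs hi => h ⟨s, hs.trans hle, hi⟩,
        fun s hs hj => hfK n (hEK _ s (hs.trans (hle.trans hq)) hj)⟩⟩

omit [LinearOrder J] in
theorem exists_par_closed {A0 : Set X} (h0 : A0.Countable) :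
    ∃ A1 : Set X, A1.Countable ∧ A0 ⊆ A1 ∧ ∀ g ∈ A1, Sup (𝒟.par g) A1 := by
  obtain ⟨Y, hY, hcl⟩ := exists_closure (μ := ℵ₀) le_rfl (X := X) (Z := Option X)
    (fun z => match z with | none => ∅ | some g => {g})
    (fun z => match z with | none => A0 | some g => ↑(𝒟.par g).support)
    (by rintro (_ | g) <;> simp)
    (by
      rintro (_ | g)
      · exact small_countable le_rfl h0
      · exact small_countable le_rfl (Finset.countable_toSet _))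
    (by
      intro Y hY
      refine small_mono (t := {none} ∪ some '' Y) ?_ (small_union le_rfl
        (small_countable le_rfl (Set.countable_singleton _)) (small_image _ hY))
      rintro (_ | g) h
      · exact Or.inl rfl
      · exact Or.inr ⟨g, h rfl, rfl⟩)
  exact ⟨Y, le_aleph0_iff_set_countable.1 hY, hcl none (Set.empty_subset _),
    fun g hg g' hg' => hcl (some g) (Set.singleton_subset_iff.2 hg) hg'⟩

theorem cdhP (hA : ∀ η, (𝒟.A η).Countable) (hT : ℵ₀ < #T)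
    (book : ∀ A0 L0, A0.Countable → L0.Countable → ∃ η, 𝒟.A η = A0 ∧ 𝒟.L η = L0 ∧
      ∀ x ∈ L0, ∀ ζ u v, edge ζ u v ∈ x.1 → ζ < η)
    (p : 𝒟.P) (D E : V X → 𝒟.P → Prop) (K : Set (V X)) (hK : K.Countable)
    (hD : ∀ i q r, r ≤ q → D i q → D i r) (hE : ∀ i q r, r ≤ q → E i q → E i r)
    (hDK : ∀ i q, q ≤ p → D i q → i ∈ K) (hEK : ∀ i q, q ≤ p → E i q → i ∈ K)
    (hDd : ∀ q n t, q ≤ p → ∃ r, r ≤ q ∧ ∃ j, D j r ∧ Agree bitP r j n t)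
    (hEd : ∀ q n t, q ≤ p → ∃ r, r ≤ q ∧ ∃ j, E j r ∧ Agree bitP r j n t) :
    ∃ η, (∀ q i, q ≤ p → ∃ r : 𝒟.P, r ≤ q ∧ ∃ j, edge η i j ∈ r.1) ∧
      (∀ q j, q ≤ p → ∃ r : 𝒟.P, r ≤ q ∧ ∃ i, edge η i j ∈ r.1) ∧
      ∀ q i j, q ≤ p → edge η i j ∈ q.1 → Lab D E i j q := by
  classical
  obtain ⟨τ0⟩ : Nonempty T := mk_ne_zero_iff.1 (lt_of_le_of_lt zero_le hT).ne'
  have : Nonempty X := ⟨𝒟.nd 0 false 0 τ0⟩
  have hinf : ((sg ⁻¹' K)ᶜ : Set X).Infinite := fun h => by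
    have h1 : (Set.univ : Set X).Countable := by
      rw [← Set.union_compl_self (sg ⁻¹' K)]
      exact (hK.preimage_of_injOn sg_injective.injOn).union h.countable
    have h2 := h1.preimage_of_injOn (f := fun τ : T => 𝒟.nd 0 false 0 τ)
      (fun a _ b _ e => (𝒟.nd_inj _ _ _ _ _ _ _ _ e).2.2.2)
    rw [Set.preimage_univ, ← le_aleph0_iff_set_countable, mk_univ] at h2
    exact absurd hT (not_lt.2 h2)
  let f : ℕ → X := fun n => (hinf.natEmbedding _ n).1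
  have hf : Function.Injective f := Subtype.val_injective.comp (hinf.natEmbedding _).injective
  have hfK : ∀ n, sg (f n) ∉ K := fun n => (hinf.natEmbedding _ n).2
  obtain ⟨A1, hA1, hA0, hlow⟩ := exists_par_closed (𝒟 := 𝒟)
    (A0 := (⋃ y ∈ K, ↑y.support) ∪ Set.range f)
    ((hK.biUnion fun y _ => y.support.countable_toSet).union (Set.countable_range f))
  have hKA : ∀ l, (l ∈ K ∨ ∃ n, l = sg (f n)) → Sup l A1 := by
    rintro l (hl | ⟨n, rfl⟩)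
    · exact fun g hg => hA0 (Or.inl (Set.mem_biUnion hl hg))
    · exact sup_sg.2 (hA0 (Or.inr ⟨n, rfl⟩))
  have hAV : {y : V X | Sup y A1}.Countable :=
    le_aleph0_iff_set_countable.1 (small_vec le_rfl (small_countable le_rfl hA1))
  choose B hB1 hB2 hB3 using fun i j => cccP hA {q | Lab D E i j q}
  let L0 : Set (Finset (Atom X J) × V X × V X) :=
    ⋃ i ∈ {y : V X | Sup y A1}, ⋃ j ∈ {y : V X | Sup y A1},
      (fun b : 𝒟.P => (b.2.fin.toFinset, i, j)) '' B i j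
  obtain ⟨η, hAη, hLη, hsup⟩ := book A1 L0 hA1
    (hAV.biUnion fun i _ => hAV.biUnion fun j _ => (hB2 i j).image _)
  have hallow : ∀ i, Sup i A1 → ∀ j, Sup j A1 → ∀ q r : 𝒟.P, Lab D E i j r → ∃ u : 𝒟.P, u ≤ r ∧
      𝒟.Allowed (Data.reset q.1 u.1 η) η i j := by
    intro i hi j hj q r hr
    obtain ⟨b, hb, u, hu1, hu2⟩ := hB3 i j r hr
    have hL : (b.2.fin.toFinset, i, j) ∈ L0 :=
      Set.mem_biUnion hi (Set.mem_biUnion hj ⟨b, hb, rfl⟩)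
    refine ⟨u, hu1, Or.inr ⟨hAη ▸ hi, hAη ▸ hj, _, hLη ▸ hL, hsup _ hL, fun a ha => ?_⟩⟩
    refine ⟨hu2 (b.2.fin.mem_toFinset.1 ha), Or.inr ?_⟩
    rintro ζ u v rfl
    exact hsup _ hL ζ u v ha
  have main : ∀ d (q : 𝒟.P) i, q ≤ p →
      ∃ r, 𝒟.Valid r ∧ q.1 ⊆ r ∧ ∃ z, dedge d η i z ∈ r := by
    intro d q i hq
    by_cases hi : Sup i A1
    · refine q.2.extend d η _ fun q' hq' hqq' N t => ?_
      have hle : (⟨q', hq'⟩ : 𝒟.P) ≤ p := le_trans (show (⟨q', hq'⟩ : 𝒟.P) ≤ q from hqq') hq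
      cases d
      · obtain ⟨r, hr, j, hj, hb, hl⟩ := find_partner hf hfK hE hDK hDd i ⟨q', hq'⟩ hle N t
        obtain ⟨u, hu, ha⟩ := hallow j (hKA j hj) i hi ⟨q', hq'⟩ r hl.swap
        exact ⟨u.1, u.2, hu.trans hr, j, fun x hx => agreeP.1 hb x (hx.mono hu), ha⟩
      · obtain ⟨r, hr, j, hj, hb, hl⟩ := find_partner hf hfK hD hEK hEd i ⟨q', hq'⟩ hle N t
        obtain ⟨u, hu, ha⟩ := hallow i hi j (hKA j hj) ⟨q', hq'⟩ r hl
        exact ⟨u.1, u.2, hu.trans hr, j, fun x hx => agreeP.1 hb x (hx.mono hu), ha⟩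
    · exact q.2.extend_out d η i (hAη ▸ hi) (hAη ▸ hlow)
  refine ⟨η, fun q i hq => ?_, fun q j hq => ?_, fun q i j hq h => ?_⟩
  · obtain ⟨r, hr, h1, z, hz⟩ := main true q i hq
    exact ⟨⟨r, hr⟩, h1, z, hz⟩
  · obtain ⟨r, hr, h1, z, hz⟩ := main false q j hq
    exact ⟨⟨r, hr⟩, h1, z, hz⟩
  · rcases q.2.allowed η _ _ h with ⟨h1, h2, _⟩ | ⟨_, _, a, h3, _, h5⟩
    · rw [hAη] at h1 h2
      exact Or.inr ⟨fun r hr hi => h1 (hKA i (Or.inl (hDK i r (hr.trans hq) hi))),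
        fun r hr hj => h2 (hKA j (Or.inl (hEK j r (hr.trans hq) hj)))⟩
    · rw [hLη] at h3
      obtain ⟨i', -, h3⟩ := Set.mem_iUnion₂.1 h3
      obtain ⟨j', -, b, hb, e⟩ := Set.mem_iUnion₂.1 h3
      simp only [Prod.mk.injEq] at e
      obtain ⟨rfl, rfl, rfl⟩ := e
      have hle : q ≤ b := fun c hc => h5 (b.2.fin.mem_toFinset.2 hc)
      rcases hB1 _ _ hb with h6 | h6
      · exact Or.inl ⟨hD _ _ _ hle h6.1, hE _ _ _ hle h6.2⟩
      · exact Or.inr ⟨fun r hr => h6.1 r (hr.trans hle), fun r hr => h6.2 r (hr.trans hle)⟩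

theorem bigP [Nonempty X] (hA : ∀ η, (𝒟.A η).Countable)
    (hJ : ∀ F : V X → Set J, (∀ i, (F i).Countable) → ∃ η, ∀ i, η ∉ F i)
    (U : V X → ℕ → 𝒟.P → Prop) :
    ∃ η : J, ∀ i p, ∃ q : 𝒟.P, q ≤ p ∧ ∃ n, (U i n q ∧ cb η n false ∈ q.1) ∨
      ((∀ r, r ≤ q → ¬ U i n r) ∧ cb η n true ∈ q.1) := by
  let Mt : V X → J → 𝒟.P → Prop := fun i η p => ∀ q : 𝒟.P, q ≤ p → ∀ n,
    ¬ ((U i n q ∧ cb η n false ∈ q.1) ∨
      ((∀ r, r ≤ q → ¬ U i n r) ∧ cb η n true ∈ q.1))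
  have hM : ∀ i η ζ p p' r, Mt i η p → Mt i ζ p' → r ≤ p → r ≤ p' → η = ζ := by
    intro i η ζ p p' r h h' hr hr'
    by_contra hne
    obtain ⟨q, hq, hrq, m, h1, h2⟩ := r.2.separate_cb hne
    have hle : (⟨q, hq⟩ : 𝒟.P) ≤ r := hrq
    by_cases c : ∃ s, s ≤ (⟨q, hq⟩ : 𝒟.P) ∧ U i m s
    · obtain ⟨s, hs, c⟩ := c
      exact h' s (hs.trans (hle.trans hr')) m (Or.inl ⟨c, hs h2⟩)
    · exact h _ (hle.trans hr) m (Or.inr ⟨fun s hs c' => c ⟨s, hs, c'⟩, h1⟩)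
  obtain ⟨η, hη⟩ := hJ (fun i => {η | ∃ p, Mt i η p}) fun i => by
    obtain ⟨B, h1, h2, h3⟩ := cccP hA {p | ∃ η, Mt i η p}
    refine (h2.biUnion (t := fun b _ => {η | Mt i η b}) fun b _ =>
      Set.Subsingleton.countable fun η h ζ h' => hM i η ζ b b b h h' le_rfl le_rfl).mono ?_
    rintro η ⟨p, hp⟩
    obtain ⟨b, hb, r, hr, hr'⟩ := h3 p ⟨η, hp⟩
    obtain ⟨ζ, hζ⟩ := h1 hb
    have := hM i η ζ p b r hp hζ hr hr'
    subst this
    exact Set.mem_biUnion hb hζ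
  refine ⟨η, fun i p => ?_⟩
  by_contra hc
  exact hη i ⟨p, fun q hq n h => hc ⟨q, hq, n, h⟩⟩

theorem bitP_add (p : 𝒟.P) (i j : V X) (n : ℕ) (a b : Bool) (h1 : bitP p i n a)
    (h2 : bitP p j n b) : bitP p (i + j) n (xor a b) := fun x hx => by
  rw [ev_add, Pi.add_apply, h1 x hx, h2 x hx, Bool.add_eq_xor]

theorem cdhSys {μ : Cardinal.{0}} (hμ : 𝔠 ≤ μ) (hA : ∀ η, (𝒟.A η).Countable)
    (hag : ∀ η ζ, η ≠ ζ →
      #{w : V X × Bool × ℕ | 𝒟.g η w.1 w.2.1 w.2.2 = 𝒟.g ζ w.1 w.2.1 w.2.2} ≤ μ)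
    (hT : μ < #T)
    (book : ∀ A0 L0, A0.Countable → L0.Countable → ∃ η, 𝒟.A η = A0 ∧ 𝒟.L η = L0 ∧
      ∀ x ∈ L0, ∀ ζ u v, edge ζ u v ∈ x.1 → ζ < η)
    (hJ : ∀ F : V X → Set J, (∀ i, (F i).Countable) → ∃ η, ∀ i, η ∉ F i) :
    CDHSys 𝒟.P (V X) bitP := by
  obtain ⟨τ⟩ : Nonempty T := mk_ne_zero_iff.1 (lt_of_le_of_lt zero_le hT).ne'
  have : Nonempty X := ⟨𝒟.nd 0 false 0 τ⟩
  refine ⟨⟨⟨∅, valid_empty⟩⟩, ⟨0⟩, fun _ _ _ _ _ h h' x hx => h' x (hx.mono h),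
    fun p i n h h' => ?_, fun p i n => ?_, fun p i j h => ?_, fun p i n t => ?_, cccP hA,
    fun U hU p n t => ?_, fun p D E K hK hD hE hDK hEK hDd hEd => ?_, fun U _ => ?_⟩
  · obtain ⟨x, hx⟩ := p.2.cons
    have := (h x hx).symm.trans (h' x hx)
    cases this
  · obtain ⟨x, hx⟩ := p.2.cons
    exact ⟨⟨_, p.2.add_fill hx i.support.finite_toSet (n + 1)⟩, Set.subset_union_left,
      ev x i n, fun x' hx' => hx'.agree_fill Set.subset_union_right (fun _ h => h) n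
        (Nat.lt_succ_self n)⟩
  · obtain ⟨q, hq, h1, m, b, h2⟩ := p.2.separate h
    exact ⟨⟨q, hq⟩, h1, m, b, fun x hx => (h2 x hx).1, fun x hx => (h2 x hx).2⟩
  · obtain ⟨m, hm⟩ := exists_fresh (f := fun m => 𝒟.nd 0 false m τ)
      (fun a b e => (𝒟.nd_inj _ _ _ _ _ _ _ _ e).2.2.1)
      ((pts_finite p.2.fin).union i.support.finite_toSet)
    obtain ⟨r, hr, h1, hb⟩ := p.2.add_point (fun h => hm (Or.inl h)) t n
    exact ⟨⟨r, hr⟩, h1, _, fun e => hm (Or.inr (by simp [← e, support_sg])), agreeP.2 hb⟩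
  · obtain ⟨j, hj, h⟩ := luzin hμ hA hag hT
      (fun k r n' t' => ∃ h : 𝒟.Valid r, U k ⟨r, h⟩ n' t')
      (fun k q hq n t => by
        obtain ⟨r, hr, n', t', h1, h2, h3⟩ := hU k ⟨q, hq⟩ n t
        exact ⟨r.1, r.2, hr, n', t', h1, h2, r.2, h3⟩) (pts p.1) (pts_finite p.2.fin)
    obtain ⟨q, hq, h1, hb⟩ := p.2.add_point hj t n
    refine ⟨⟨q, hq⟩, h1, sg j, agreeP.2 hb, fun k q' _ => ?_⟩
    obtain ⟨u, hu, h2, r, n', t', h3, ⟨hr, h4⟩, h5⟩ := h k q'.1 q'.2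
    exact ⟨⟨u, hu⟩, h2, ⟨r, hr⟩, n', t', h3, h4, agreeP.2 h5⟩
  · obtain ⟨η, h1, h2, h3⟩ := cdhP hA ((aleph0_le_continuum.trans hμ).trans_lt hT) book p D E K
      hK hD hE hDK hEK hDd hEd
    refine ⟨fun q i j => edge η i j ∈ q.1, fun _ _ _ _ h h' => h h', h1, h2, h3,
      fun q i j i' j' n a a' b b' e e' ha ha' hb hb' => ?_⟩
    obtain ⟨x, hx⟩ := q.2.cons
    have hw := (q.2.iso x hx).wi e e' n
    have g1 : agree n (ev x i) a := agreeP.1 ha x hx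
    have g2 : agree n (ev x i') a' := agreeP.1 ha' x hx
    have g3 : agree n (ev x j) b := agreeP.1 hb x hx
    have g4 : agree n (ev x j') b' := agreeP.1 hb' x hx
    exact ⟨fun h => (g3.symm.trans (hw.1 ((g1.trans h).trans g2.symm))).trans g4,
      fun h => (g1.symm.trans (hw.2 ((g3.trans h).trans g4.symm))).trans g2⟩
  · obtain ⟨η, h⟩ := bigP hA hJ U
    exact ⟨fun q n b => cb η n b ∈ q.1, fun _ _ _ _ h h' => h h', fun q n => q.2.cbc η n, h⟩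

end Data

end Pool.Agent.Work.MP_3181e1_lc.Grp
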