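import Pool.Agent.Work.MP_3181e1_lc.Defs

/-! Two further notions, interpreted inside a structure `(M, E)` for the language of set theory. -/

namespace Pool.Agent.Work.MP_3181e1_lc
open Pool.Agent.Work.MP_63c7e0_lc

universe u
variable {M : Type u} (E : M → M → Prop)

/-- `X` is a subgroup of `(P(ω), Δ) = 2 ^ ω` once it is known to consist of subsets of `ω`: it
contains the empty set and the symmetric difference of any two of its members. -/
def IsSymmSubgroup (X : M) : Prop :=
  (∃ e, E e X ∧ IsEmptySet E e) ∧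
  ∀ x y, E x X → E y X → ∃ z, E z X ∧ ∀ m, E m z ↔ ¬ (E m x ↔ E m y)

/-- `ℵ_ω ≤ |X|`: there is a sequence `(Y n)`, `n ∈ ω`, of uncountable subsets of `X` such that
`Y n'` does not inject into `Y n` whenever `n < n'`. -/
def AlephOmegaLe (X : M) : Prop :=
  ∃ w R f, IsOmega E w ∧ IsFun E f w R ∧
    (∀ n Y, App E f n Y → Sub E Y X ∧ ¬ IsCountable E Y) ∧
    ∀ n n' Y Y', E n n' → App E f n Y → App E f n' Y' → ¬ ∃ g, IsInj E g Y' Y

end Pool.Agent.Work.MP_3181e1_lc
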