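import Pool.Agent.Work.MP_3181e1_lc.G.Poset

/-! Small sets of generators and coordinates that realise all types; the chain condition. -/

namespace Pool.Agent.Work.MP_3181e1_lc.Grp

open Cardinal Atom

section general
variable {X J : Type} {μ : Cardinal.{0}}

/-- `q` contains a copy over `S` of the atoms of `p` with index in `K`. -/
def Realises (q p : Set (Atom X J)) (S : Set X) (K : Set J) : Prop :=
  ∃ π : X → X, (∀ y ∈ S, π y = y) ∧ ∀ a ∈ p, a.cs ⊆ K → a.map π ∈ q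

def Inside (S : Set X) (K : Set J) : Set (Atom X J) := {a | a.pts ⊆ S ∧ a.cs ⊆ K}

theorem realises_of_subset {q p : Set (Atom X J)} (h : p ⊆ q) (S : Set X) (K : Set J) :
    Realises q p S K :=
  ⟨id, fun _ _ => rfl, fun a h1 _ => by rw [Atom.map_id]; exact h h1⟩

theorem small_inside (hμ : ℵ₀ ≤ μ) {S : Set X} {K : Set J} (hS : #S ≤ μ) (hK : #K ≤ μ) :
    #(Inside S K) ≤ μ := by
  refine small_mono (t := (fun a : X × ℕ × Bool => bit a.1 a.2.1 a.2.2) '' (S ×ˢ Set.univ) ∪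
    ((fun a : J × V X × V X => edge a.1 a.2.1 a.2.2) ''
      (K ×ˢ {y : V X | Sup y S} ×ˢ {y : V X | Sup y S}) ∪
    (fun a : J × ℕ × Bool => cb a.1 a.2.1 a.2.2) '' (K ×ˢ Set.univ))) ?_
    (small_union hμ (small_image _ (small_prod hμ hS (small_countable hμ Set.countable_univ)))
      (small_union hμ
        (small_image _ (small_prod hμ hK (small_prod hμ (small_vec hμ hS) (small_vec hμ hS))))
        (small_image _ (small_prod hμ hK (small_countable hμ Set.countable_univ)))))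
  rintro (⟨y, k, b⟩ | ⟨η, y, z⟩ | ⟨η, k, b⟩) ⟨h1, h2⟩
  · exact Or.inl ⟨(y, k, b), ⟨h1 rfl, trivial⟩, rfl⟩
  · exact Or.inr (Or.inl ⟨(η, y, z), ⟨h2 rfl, fun g hg => h1 (Or.inl hg),
      fun g hg => h1 (Or.inr hg)⟩, rfl⟩)
  · exact Or.inr (Or.inr ⟨(η, k, b), ⟨h2 rfl, trivial⟩, rfl⟩)

theorem exists_hull [Nonempty X] (hμ : ℵ₀ ≤ μ) {ι : Type} (hι : #ι ≤ μ)
    (𝒜 : ι → Set (Set (Atom X J)))
    (h𝒜 : ∀ i, ∀ q ∈ 𝒜 i, q.Finite) (F : V X → J → Set X) (hF : ∀ y η, #(F y η) ≤ μ)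
    (G : J → J → Set X) (hG : ∀ η ζ, #(G η ζ) ≤ μ) (S0 : Set X) (hS0 : #S0 ≤ μ) :
    ∃ (S : Set X) (K : Set J), #S ≤ μ ∧ #K ≤ μ ∧ S0 ⊆ S ∧
      (∀ y, Sup y S → ∀ η ∈ K, F y η ⊆ S) ∧ (∀ η ∈ K, ∀ ζ ∈ K, G η ζ ⊆ S) ∧
      ∀ i p, p.Finite → (∃ q ∈ 𝒜 i, Realises q p S K) →
        ∃ q ∈ 𝒜 i, Realises q p S K ∧ q ⊆ Inside S K := by
  classical
  let Rz : Set (Atom X J) → List (Atom (X ⊕ ℕ) J) → Prop := fun q τ =>
    ∃ π : ℕ → X, ∀ a ∈ τ, a.map (Sum.elim id π) ∈ q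
  let supp : (ι × List (Atom (X ⊕ ℕ) J)) ⊕ (V X × J) ⊕ (J × J) ⊕ Unit → Set (X ⊕ J) := fun z =>
    match z with
    | .inl (_, τ) => ⋃ a ∈ τ, (Sum.inl '' (Sum.inl ⁻¹' a.pts) ∪ Sum.inr '' a.cs)
    | .inr (.inl (y, η)) => insert (.inr η) (Sum.inl '' ↑y.support)
    | .inr (.inr (.inl (η, ζ))) => {.inr η, .inr ζ}
    | .inr (.inr (.inr _)) => ∅
  let res : (ι × List (Atom (X ⊕ ℕ) J)) ⊕ (V X × J) ⊕ (J × J) ⊕ Unit → Set (X ⊕ J) := fun z =>
    match z with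
    | .inl (i, τ) => ⋃ h : (∃ q ∈ 𝒜 i, Rz q τ), ⋃ a ∈ h.choose,
        (Sum.inl '' a.pts ∪ Sum.inr '' a.cs)
    | .inr (.inl (y, η)) => Sum.inl '' F y η
    | .inr (.inr (.inl (η, ζ))) => Sum.inl '' G η ζ
    | .inr (.inr (.inr _)) => Sum.inl '' S0
  obtain ⟨Y, hY, hcl⟩ := exists_closure hμ supp res
    (by
      rintro (⟨i, τ⟩ | ⟨y, η⟩ | ⟨η, ζ⟩ | _)
      · refine (List.finite_toSet τ).biUnion fun a _ => Set.Finite.union ?_ (a.cs_finite.image _)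
        exact (a.pts_finite.preimage Sum.inl_injective.injOn).image _
      · exact (y.support.finite_toSet.image _).insert _
      · exact Set.toFinite _
      · exact Set.finite_empty)
    (by
      rintro (⟨i, τ⟩ | ⟨y, η⟩ | ⟨η, ζ⟩ | _)
      · refine small_countable hμ (Set.countable_iUnion fun h => ?_)
        refine (h𝒜 i _ h.choose_spec.1).countable.biUnion fun a _ => ?_
        exact ((a.pts_finite.image _).union (a.cs_finite.image _)).countable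
      · exact small_image _ (hF y η)
      · exact small_image _ (hG η ζ)
      · exact small_image _ hS0)
    (by
      intro Y hY
      have h1 : #(Sum.inl ⁻¹' Y : Set X) ≤ μ := small_preimage Sum.inl_injective hY
      have h2 : #(Sum.inr ⁻¹' Y : Set J) ≤ μ := small_preimage Sum.inr_injective hY
      have h3 : #(Sum.inl '' (Sum.inl ⁻¹' Y : Set X) ∪ Set.range Sum.inr : Set (X ⊕ ℕ)) ≤ μ :=
        small_union hμ (small_image _ h1) (small_countable hμ (Set.countable_range _))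
      have h4 := small_prod hμ (small_univ hι) (small_lists hμ (small_inside hμ h3 h2))
      refine small_mono ?_ (small_union hμ (small_image Sum.inl h4) (small_image Sum.inr
        (small_union hμ (small_image Sum.inl (small_prod hμ (small_vec hμ h1) h2))
          (small_image Sum.inr (small_union hμ (small_image Sum.inl (small_prod hμ h2 h2))
            (small_countable hμ (Set.countable_range Sum.inr)))))))
      rintro (⟨i, τ⟩ | ⟨y, η⟩ | ⟨η, ζ⟩ | u) hz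
      · refine Or.inl ⟨(i, τ), ⟨trivial, fun a ha => ⟨?_, fun η hη => ?_⟩⟩, rfl⟩
        · rintro (y | n) hy
          · exact Or.inl ⟨y, hz (Set.mem_biUnion ha (Or.inl ⟨y, hy, rfl⟩)), rfl⟩
          · exact Or.inr ⟨n, rfl⟩
        · exact hz (Set.mem_biUnion ha (Or.inr ⟨η, hη, rfl⟩))
      · exact Or.inr ⟨_, Or.inl ⟨(y, η), ⟨fun g hg => hz (Or.inr ⟨g, hg, rfl⟩),
          hz (Or.inl rfl)⟩, rfl⟩, rfl⟩
      · exact Or.inr ⟨_, Or.inr ⟨_, Or.inl ⟨(η, ζ), ⟨hz (Or.inl rfl), hz (Or.inr rfl)⟩, rfl⟩,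
          rfl⟩, rfl⟩
      · exact Or.inr ⟨_, Or.inr ⟨_, Or.inr ⟨u, rfl⟩, rfl⟩, rfl⟩)
  refine ⟨Sum.inl ⁻¹' Y, Sum.inr ⁻¹' Y, small_preimage Sum.inl_injective hY,
    small_preimage Sum.inr_injective hY, fun y hy => ?_, fun y hy η hη z hz => ?_,
    fun η hη ζ hζ z hz => ?_, ?_⟩
  · exact hcl (.inr (.inr (.inr ()))) (Set.empty_subset _) ⟨y, hy, rfl⟩
  · refine hcl (.inr (.inl (y, η))) ?_ ⟨z, hz, rfl⟩
    rintro _ (rfl | ⟨g, hg, rfl⟩)
    exacts [hη, hy g hg]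
  · refine hcl (.inr (.inr (.inl (η, ζ)))) ?_ ⟨z, hz, rfl⟩
    rintro _ (rfl | rfl)
    exacts [hη, hζ]
  · rintro i p hp ⟨q, hq, π, hπ1, hπ2⟩
    obtain ⟨lab, hlab⟩ := Set.countable_iff_exists_injOn.1 (pts_finite hp).countable
    let c : X → X ⊕ ℕ := fun y => if Sum.inl y ∈ Y then .inl y else .inr (lab y)
    have hfin : ((Atom.map c) '' {a ∈ p | a.cs ⊆ Sum.inr ⁻¹' Y}).Finite :=
      (hp.subset (Set.sep_subset _ _)).image _
    let τ := hfin.toFinset.toList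
    have hτ : ∀ a, a ∈ τ ↔ ∃ a0, (a0 ∈ p ∧ a0.cs ⊆ Sum.inr ⁻¹' Y) ∧ a0.map c = a := by
      intro a
      simp only [τ, Finset.mem_toList, Set.Finite.mem_toFinset, Set.mem_image, Set.mem_ofPred_eq]
    have hc : ∀ y y', c y = .inl y' → Sum.inl y' ∈ Y := by
      intro y y' h
      simp only [c] at h
      split_ifs at h with h1
      cases h; exact h1
    have hex : ∃ q ∈ 𝒜 i, Rz q τ := by
      have hπ : ∀ y ∈ pts p,
          Sum.elim id (fun n => π (Function.invFunOn lab (pts p) n)) (c y) = π y := by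
        intro y hy
        simp only [c]
        split_ifs with h1
        · exact (hπ1 y h1).symm
        · simp only [Sum.elim_inr]
          rw [hlab.leftInvOn_invFunOn hy]
      refine ⟨q, hq, fun n => π (Function.invFunOn lab (pts p) n), fun a ha => ?_⟩
      obtain ⟨a0, ⟨h1, h2⟩, rfl⟩ := (hτ a).1 ha
      rw [Atom.map_map]
      exact (Atom.map_congr (h := π) fun g hg => hπ g (Set.mem_biUnion h1 hg)).symm ▸
        hπ2 a0 h1 h2
    obtain ⟨h1, π', h2⟩ := hex.choose_spec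
    have hin : res (.inl (i, τ)) ⊆ Y := by
      refine hcl (.inl (i, τ)) (Set.iUnion₂_subset fun a ha => ?_)
      obtain ⟨a0, ⟨h3, h4⟩, rfl⟩ := (hτ a).1 ha
      rintro _ (⟨y, hy, rfl⟩ | ⟨η, hη, rfl⟩)
      · obtain ⟨y0, -, e⟩ := Atom.pts_map c a0 hy
        exact hc y0 y e
      · rw [Atom.cs_map] at hη
        exact h4 hη
    refine ⟨_, h1, ⟨Sum.elim id π' ∘ c, fun y hy => ?_, fun a ha hK => ?_⟩,
      fun a ha => ⟨fun y hy => ?_, fun η hη => ?_⟩⟩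
    · simp only [c, Function.comp]
      rw [if_pos (show Sum.inl y ∈ Y from hy)]; rfl
    · rw [← Atom.map_map]
      exact h2 _ ((hτ _).2 ⟨a, ⟨ha, hK⟩, rfl⟩)
    · exact hin (Set.mem_iUnion.2 ⟨hex, Set.mem_biUnion ha (Or.inl ⟨y, hy, rfl⟩)⟩)
    · exact hin (Set.mem_iUnion.2 ⟨hex, Set.mem_biUnion ha (Or.inr ⟨η, hη, rfl⟩)⟩)

theorem inside_edge {S : Set X} {K : Set J} {q : Set (Atom X J)} (hin : q ⊆ Inside S K) {η y z}
    (h : edge η y z ∈ q) : η ∈ K ∧ Sup y S ∧ Sup z S :=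
  ⟨(hin h).2 rfl, fun _ hg => (hin h).1 (Or.inl hg), fun _ hg => (hin h).1 (Or.inr hg)⟩

theorem copy_bit {K : Set J} {p q : Set (Atom X J)} {π : X → X}
    (h : ∀ a ∈ p, a.cs ⊆ K → a.map π ∈ q) {y k b} (hb : bit y k b ∈ p) : bit (π y) k b ∈ q :=
  h _ hb (Set.empty_subset _)

theorem copy_edge {K : Set J} {p q : Set (Atom X J)} {π : X → X}
    (h : ∀ a ∈ p, a.cs ⊆ K → a.map π ∈ q) {η y z} (hb : edge η y z ∈ p) (hη : η ∈ K) :
    edge η (y.mapDomain π) (z.mapDomain π) ∈ q :=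
  h _ hb (Set.singleton_subset_iff.2 hη)

theorem copy_cb {S : Set X} {K : Set J} {p q : Set (Atom X J)} {π : X → X}
    (h : ∀ a ∈ p, a.cs ⊆ K → a.map π ∈ q) (hin : q ⊆ Inside S K) (η k b b')
    (h1 : cb η k b ∈ p) (h2 : cb η k b' ∈ q) : cb η k b ∈ q :=
  h _ h1 (hin h2).2

end general

variable {X T J : Type} [LinearOrder J] {𝒟 : Data X T J}

namespace Data

variable (𝒟) in
/-- The generators needed for the possible neighbours of `y` along `η`. -/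
def nb (y : V X) (η : J) : Set X :=
  𝒟.A η ∪ ((⋃ g ∈ y.support, ↑(𝒟.par g).support) ∪
    Set.range fun a : Bool × ℕ => 𝒟.up η y a.1 a.2)

omit [LinearOrder J] in
theorem nb_countable (hA : ∀ η, (𝒟.A η).Countable) (y : V X) (η : J) :
    (𝒟.nb y η).Countable :=
  (hA η).union ((y.support.countable_toSet.biUnion fun g _ =>
    (𝒟.par g).support.countable_toSet).union (Set.countable_range _))

omit [LinearOrder J] in
theorem sup_up_iff {S : Set X} {η : J} (hcl : ∀ y, Sup y S → 𝒟.nb y η ⊆ S) (w : V X) (b n) :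
    Sup (sg (𝒟.up η w b n)) S ↔ Sup w S := by
  refine ⟨fun h g hg => hcl _ h (Or.inr (Or.inl ?_)),
    fun h => sup_sg.2 (hcl w h (Or.inr (Or.inr ⟨(b, n), rfl⟩)))⟩
  refine Set.mem_biUnion (x := 𝒟.up η w b n) (by simp [support_sg]) ?_
  rw [par_up]
  exact hg

/-- An edge of `p` that is missing in a copy of `p` lies outside. -/
theorem Valid.outside {p q : Set (Atom X J)} (hp : 𝒟.Valid p) {S : Set X}
    {K : Set J} (hcl : ∀ y, Sup y S → ∀ η ∈ K, 𝒟.nb y η ⊆ S) {π : X → X}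
    (h1 : ∀ y ∈ S, π y = y) (h3 : ∀ a ∈ p, a.cs ⊆ K → a.map π ∈ q)
    {η y z} (hη : η ∈ K) (he : edge η y z ∈ p) (hn : edge η y z ∉ q) :
    ¬ Sup y S ∧ ¬ Sup z S ∧ 𝒟.Forest η y z := by
  have key : ¬ (Sup y S ∧ Sup z S) := fun hc => by
    have := copy_edge h3 he hη
    rw [map_eq_self h1 hc.1, map_eq_self h1 hc.2] at this
    exact hn this
  have hA : 𝒟.A η ⊆ S := fun g hg => hcl 0 (sup_zero S) η hη (Or.inl hg)
  rcases hp.allowed η y z he with ⟨-, -, hF⟩ | ⟨a1, a2, -⟩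
  · have hi : Sup y S ↔ Sup z S := by
      rcases hF with ⟨n, rfl⟩ | ⟨n, rfl⟩
      · exact (sup_up_iff (fun y hy => hcl y hy η hη) _ _ _).symm
      · exact sup_up_iff (fun y hy => hcl y hy η hη) _ _ _
    exact ⟨fun h => key ⟨h, hi.1 h⟩, fun h => key ⟨hi.2 h, h⟩, hF⟩
  · exact absurd ⟨a1.mono hA, a2.mono hA⟩ key

theorem ccc [Nonempty X] (hA : ∀ η, (𝒟.A η).Countable) (𝒜 : Set (Set (Atom X J)))
    (h𝒜 : ∀ p ∈ 𝒜, 𝒟.Valid p) :
    ∃ ℬ, ℬ ⊆ 𝒜 ∧ ℬ.Countable ∧ ∀ p ∈ 𝒜, ∃ q ∈ ℬ, ∃ u, 𝒟.Valid u ∧ p ⊆ u ∧ q ⊆ u := by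
  obtain ⟨S, K, hS, hK, -, hcl, -, h⟩ := exists_hull (μ := ℵ₀) le_rfl (ι := Unit) (by simp)
    (fun _ => 𝒜) (fun _ q hq => (h𝒜 q hq).fin) 𝒟.nb
    (fun y η => small_countable le_rfl (nb_countable hA y η)) (fun _ _ => ∅) (by simp) ∅ (by simp)
  refine ⟨{q ∈ 𝒜 | q ⊆ Inside S K}, Set.sep_subset _ _, ?_, fun p hp => ?_⟩
  · refine (Set.countable_ofPred_finite_subset
      (le_aleph0_iff_set_countable.1 (small_inside le_rfl hS hK))).mono ?_
    exact fun q hq => ⟨(h𝒜 q hq.1).fin, hq.2⟩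
  obtain ⟨q, hq, ⟨π, h1, h3⟩, hin⟩ :=
    h () p (h𝒜 p hp).fin ⟨p, hp, realises_of_subset le_rfl S K⟩
  obtain ⟨x, hx⟩ := (h𝒜 q hq).cons
  obtain ⟨u, hu, hpu, hqu, -⟩ := (h𝒜 p hp).amalg (h𝒜 q hq) Set.finite_empty
    (fun _ h => h.elim) S (t := fun y => x (π y)) (fun y k b hb => hx _ k b (copy_bit h3 hb))
    (fun y k b hb => by
      show x (π y) k = b
      rw [h1 y ((hin hb).1 rfl)]; exact hx y k b hb)
    (fun _ _ _ h => h.elim) (copy_cb h3 hin)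
    (fun η y z y' z' e1 e2 e3 => by
      obtain ⟨hη, hy', hz'⟩ := inside_edge hin e2
      obtain ⟨hy, hz, hF⟩ := (h𝒜 p hp).outside hcl h1 h3 hη e1 e3
      refine ⟨hy, hz, hF, hy', hz', ?_⟩
      rw [← ev_map x π y, ← ev_map x π z, ← ev_map x π y', ← ev_map x π z', map_eq_self h1 hy',
        map_eq_self h1 hz']
      exact ((h𝒜 q hq).iso x hx).wi (copy_edge h3 e1 hη) e2)
  exact ⟨q, ⟨hq, hin⟩, u, hu, hpu, hqu⟩

end Data

end Pool.Agent.Work.MP_3181e1_lc.Grp
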