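import Pool.Agent.Work.MP_3181e1_lc.G.Hull

/-! All but few of the base generators are generic over any countable family of dense open
sets. -/

namespace Pool.Agent.Work.MP_3181e1_lc.Grp

open Cardinal Atom

variable {X T J : Type} [LinearOrder J] {𝒟 : Data X T J}

namespace Data

/-- Propagation of strings along the forest of missing edges. -/
theorem Valid.propagate {p q : Set (Atom X J)} (hp : 𝒟.Valid p) (hq : 𝒟.Valid q)
    {S : Set X} {K : Set J} (hcl : ∀ y, Sup y S → ∀ η ∈ K, 𝒟.nb y η ⊆ S)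
    (hG : ∀ η ∈ K, ∀ ζ ∈ K, η ≠ ζ → ∀ l b n, 𝒟.g η l b n = 𝒟.g ζ l b n → 𝒟.up η l b n ∈ S)
    (hin : q ⊆ Inside S K) {π : X → X} (h1 : ∀ y ∈ S, π y = y)
    (h3 : ∀ a ∈ p, a.cs ⊆ K → a.map π ∈ q)
    {x1 xq : X → Seq} (hx1 : Cons x1 p) (hxq : Cons xq q) {n : ℕ}
    (hn : ∀ y k b, bit y k b ∈ p → k < n) (hπ : ∀ y ∈ pts p, agree n (xq (π y)) (x1 y))
    {w0 : X} (hw0 : w0 ∉ S) (hw0' : 𝒟.par w0 = 0) (t' : Seq) (ht' : agree n t' (x1 w0))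
    (n' : ℕ) :
    ∃ u, 𝒟.Valid u ∧ p ⊆ u ∧ q ⊆ u ∧ ∀ x, Cons x u → agree n' (ev x (sg w0)) t' := by
  classical
  let base : X → Seq := fun y => if y = w0 then t' else xq (π y)
  have hb1 : ∀ y ∈ pts p, agree n (base y) (x1 y) := by
    intro y hy
    simp only [base]
    split_ifs with h
    · rw [h]; exact ht'
    · exact hπ y hy
  have hb2 : ∀ y ∈ S, base y = xq y := by
    intro y hy
    have : y ≠ w0 := fun e => hw0 (e ▸ hy)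
    simp only [base, if_neg this, h1 y hy]
  let Ms : J → V X → V X → Prop := fun η y z => η ∈ K ∧ edge η y z ∈ p ∧ edge η y z ∉ q
  have hout : ∀ η y z, Ms η y z → ¬ Sup y S ∧ ¬ Sup z S ∧ 𝒟.Forest η y z := by
    rintro η y z ⟨a1, a2, a3⟩
    exact hp.outside hcl h1 h3 a1 a2 a3
  let Up : X → J → Prop := fun i η =>
    (∃ m, i = 𝒟.up η (𝒟.par i) true m) ∧ Ms η (𝒟.par i) (sg i)
  let Dn : X → J → Prop := fun i η =>
    (∃ m, i = 𝒟.up η (𝒟.par i) false m) ∧ Ms η (sg i) (𝒟.par i)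
  let Rel : X → Seq → Seq → Prop := fun i a b =>
    (∀ η, Up i η → ∀ y' z', edge η y' z' ∈ q → WI a b (ev xq y') (ev xq z')) ∧
    (∀ η, Dn i η → ∀ y' z', edge η y' z' ∈ q → WI b a (ev xq y') (ev xq z')) ∧
    ((∀ η, ¬ Up i η) → (∀ η, ¬ Dn i η) → b = base i)
  have huniq : ∀ η ζ i w d m m', η ∈ K → ζ ∈ K → i ∉ S →
      i = 𝒟.up η w d m → i = 𝒟.up ζ w d m' → η = ζ := by
    intro η ζ i w d m m' hη hζ hS e1 e2
    by_contra hne
    obtain ⟨-, -, rfl, e3⟩ := 𝒟.nd_inj _ _ _ _ _ _ _ _ (e1.symm.trans e2)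
    exact hS (e1 ▸ hG η hη ζ hζ hne w d m e3)
  have htot : ∀ i a, ∃ b, Rel i a b := by
    intro i a
    by_cases c1 : ∃ η, Up i η
    · obtain ⟨η, ⟨m, hm⟩, hη⟩ := c1
      obtain ⟨-, a2, -⟩ := hout _ _ _ hη
      obtain ⟨b, hb⟩ := exists_ext (fun a b => ∃ u v, edge η u v ∈ q ∧ a = ev xq u ∧ b = ev xq v)
        (by
          rintro _ _ _ _ ⟨u, v, h, rfl, rfl⟩ ⟨u', v', h', rfl, rfl⟩
          exact (hq.iso xq hxq).wi h h') a
      refine ⟨b, fun ζ ⟨⟨m', hm'⟩, hζ⟩ y' z' h => ?_, fun ζ ⟨⟨m', hm'⟩, hζ⟩ => ?_,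
        fun h => absurd ⟨⟨m, hm⟩, hη⟩ (h η)⟩
      · have := huniq η ζ i _ true m m' hη.1 hζ.1 (fun e => a2 (sup_sg.2 e)) hm hm'
        subst this
        exact hb _ _ ⟨y', z', h, rfl, rfl⟩
      · have := (𝒟.nd_inj _ _ _ _ _ _ _ _ (hm.symm.trans hm')).2.1
        cases this
    by_cases c2 : ∃ η, Dn i η
    · obtain ⟨η, ⟨m, hm⟩, hη⟩ := c2
      obtain ⟨a2, -, -⟩ := hout _ _ _ hη
      obtain ⟨b, hb⟩ := exists_ext (fun a b => ∃ u v, edge η u v ∈ q ∧ a = ev xq v ∧ b = ev xq u)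
        (by
          rintro _ _ _ _ ⟨u, v, h, rfl, rfl⟩ ⟨u', v', h', rfl, rfl⟩
          exact ((hq.iso xq hxq).wi h h').swap) a
      refine ⟨b, fun ζ hζ => absurd ⟨ζ, hζ⟩ c1, fun ζ ⟨⟨m', hm'⟩, hζ⟩ y' z' h => ?_,
        fun _ h => absurd ⟨⟨m, hm⟩, hη⟩ (h η)⟩
      have := huniq η ζ i _ false m m' hη.1 hζ.1 (fun e => a2 (sup_sg.2 e)) hm hm'
      subst this
      exact (hb _ _ ⟨y', z', h, rfl, rfl⟩).swap
    · exact ⟨_, fun ζ hζ => absurd ⟨ζ, hζ⟩ c1, fun ζ hζ => absurd ⟨ζ, hζ⟩ c2, fun _ _ => rfl⟩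
  choose f hf using htot
  obtain ⟨t, ht⟩ := exists_rec 𝒟.lev 𝒟.par 𝒟.lev_par f
  have htI : ∀ i, Rel i (ev t (𝒟.par i)) (t i) := fun i => by
    rw [ht i]; exact hf i _
  have hA : ∀ y ∈ S, t y = xq y := fun y hy =>
    ((htI y).2.2 (fun η h => (hout _ _ _ h.2).2.1 (sup_sg.2 hy))
      fun η h => (hout _ _ _ h.2).1 (sup_sg.2 hy)).trans (hb2 _ hy)
  have hA' : ∀ y : V X, Sup y S → ev t y = ev xq y := fun y hy => ev_eq fun g hg => hA g (hy g hg)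
  have hB : t w0 = t' := by
    refine ((htI w0).2.2 (fun η h => (hout _ _ _ h.2).1 (hw0' ▸ sup_zero S))
      fun η h => (hout _ _ _ h.2).2.1 (hw0' ▸ sup_zero S)).trans ?_
    simp only [base, if_true]
  have hC : ∀ k y, 𝒟.lev y = k → y ∈ pts p → agree n (t y) (x1 y) := by
    intro k
    induction k using Nat.strong_induction_on with
    | _ k ih =>
      intro i hi hy
      have hpar : Sup (𝒟.par i) (pts p) →
          agree n (ev t (𝒟.par i)) (ev xq ((𝒟.par i).mapDomain π)) := fun hs => by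
        rw [ev_map]
        exact ev_agree fun g hg => (ih _ (hi ▸ 𝒟.lev_par i g hg) g rfl (hs g hg)).trans
          (hπ g (hs g hg)).symm
      by_cases c1 : ∃ η, Up i η
      · obtain ⟨η, hη⟩ := c1
        have := (htI i).1 η hη _ _ (copy_edge h3 hη.2.2.1 hη.2.1) n
        rw [map_sg, ev_sg] at this
        exact (this.1 (hpar (sup_left hη.2.2.1))).trans (hπ _ hy)
      by_cases c2 : ∃ η, Dn i η
      · obtain ⟨η, hη⟩ := c2
        have := (htI i).2.1 η hη _ _ (copy_edge h3 hη.2.2.1 hη.2.1) n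
        rw [map_sg, ev_sg] at this
        exact (this.2 (hpar (sup_right hη.2.2.1))).trans (hπ _ hy)
      · rw [(htI i).2.2 (fun η h => c1 ⟨η, h⟩) fun η h => c2 ⟨η, h⟩]
        exact hb1 _ hy
  obtain ⟨u, hu, hpu, hqu, hR⟩ := hp.amalg hq (fill_finite t (Set.finite_singleton w0) n')
    (onlyBits_fill _ _ _) S (t := t)
    (fun y k b hb => (hC _ y rfl (mem_pts_bit hb) k (hn y k b hb)).trans (hx1 y k b hb))
    (fun y k b hb => by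
      rw [hA y ((hin hb).1 rfl)]; exact hxq y k b hb)
    (cons_fill _ _ _) (copy_cb h3 hin)
    (fun η y z y' z' e1 e2 e3 => by
      obtain ⟨hη, hy', hz'⟩ := inside_edge hin e2
      obtain ⟨hy, hz, hF⟩ := hout η y z ⟨hη, e1, e3⟩
      refine ⟨hy, hz, hF, hy', hz', ?_⟩
      rw [hA' y' hy', hA' z' hz']
      rcases hF with ⟨m, rfl⟩ | ⟨m, rfl⟩
      · have := (htI (𝒟.up η y true m)).1 η
          ⟨⟨m, by rw [par_up]⟩, by rw [par_up]; exact ⟨hη, e1, e3⟩⟩ _ _ e2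
        rwa [par_up, ← ev_sg t] at this
      · have := (htI (𝒟.up η z false m)).2.1 η
          ⟨⟨m, by rw [par_up]⟩, by rw [par_up]; exact ⟨hη, e1, e3⟩⟩ _ _ e2
        rwa [par_up, ← ev_sg t] at this)
  refine ⟨u, hu, hpu, hqu, fun x hx => ?_⟩
  have := hx.agree_fill hR (y := sg w0) (sup_sg.2 rfl)
  rwa [ev_sg t, hB] at this

theorem luzin {μ : Cardinal.{0}} (hμ : 𝔠 ≤ μ) (hA : ∀ η, (𝒟.A η).Countable)
    (hag : ∀ η ζ, η ≠ ζ →
      #{w : V X × Bool × ℕ | 𝒟.g η w.1 w.2.1 w.2.2 = 𝒟.g ζ w.1 w.2.1 w.2.2} ≤ μ)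
    (hT : μ < #T) (U : ℕ → Set (Atom X J) → ℕ → Seq → Prop)
    (hU : ∀ k p, 𝒟.Valid p → ∀ n t, ∃ r, 𝒟.Valid r ∧ p ⊆ r ∧
      ∃ n' t', n ≤ n' ∧ agree n t' t ∧ U k r n' t')
    (S0 : Set X) (hS0 : S0.Finite) :
    ∃ j : X, j ∉ S0 ∧ ∀ k p, 𝒟.Valid p → ∃ u, 𝒟.Valid u ∧ p ⊆ u ∧
      ∃ r n' t', r ⊆ u ∧ U k r n' t' ∧ ∀ x, Cons x u → agree n' (ev x (sg j)) t' := by
  have hc : ℵ₀ ≤ μ := aleph0_le_continuum.trans hμ
  obtain ⟨τ0⟩ : Nonempty T := mk_ne_zero_iff.1 (lt_of_le_of_lt zero_le hT).ne'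
  have : Nonempty X := ⟨𝒟.nd 0 false 0 τ0⟩
  obtain ⟨S, K, hS, -, hS0', hcl, hG, h⟩ := exists_hull (μ := μ) hc (ι := ℕ × ℕ × Seq)
    (by simpa using hμ)
    (fun i => {q | 𝒟.Valid q ∧ ∃ n' t', i.2.1 ≤ n' ∧ agree i.2.1 t' i.2.2 ∧ U i.1 q n' t'})
    (fun _ q hq => hq.1.fin) 𝒟.nb (fun y η => small_countable hc (nb_countable hA y η))
    (fun η ζ => {z | η ≠ ζ ∧ ∃ l b n, 𝒟.g η l b n = 𝒟.g ζ l b n ∧ z = 𝒟.up η l b n})
    (fun η ζ => by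
      by_cases e : η = ζ
      · exact small_countable hc (Set.countable_empty.mono fun z hz => hz.1 e)
      · refine small_mono ?_ (small_image (fun w => 𝒟.up η w.1 w.2.1 w.2.2) (hag η ζ e))
        rintro _ ⟨_, l, b, n, h1, rfl⟩
        exact ⟨(l, b, n), h1, rfl⟩)
    S0 (small_countable hc hS0.countable)
  obtain ⟨τ, hτ⟩ : ∃ τ : T, 𝒟.nd 0 false 0 τ ∉ S := by
    by_contra hn
    push Not at hn
    have h1 := small_preimage (f := fun τ : T => 𝒟.nd 0 false 0 τ)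
      (fun a b e => (𝒟.nd_inj _ _ _ _ _ _ _ _ e).2.2.2) hS
    rw [Set.eq_univ_of_forall (s := _ ⁻¹' S) hn, mk_univ] at h1
    exact absurd hT (not_lt.2 h1)
  refine ⟨𝒟.nd 0 false 0 τ, fun hm => hτ (hS0' hm), fun k p hp => ?_⟩
  obtain ⟨x1, hx1⟩ := hp.cons
  obtain ⟨n, hn⟩ := exists_bound hp.fin
  have hp1 := hp.add_fill hx1 (pts_finite hp.fin) n
  obtain ⟨r, hr, hpr, hr'⟩ := hU k _ hp1 n (x1 (𝒟.nd 0 false 0 τ))
  obtain ⟨q, ⟨hq, n', t', -, ht', hU'⟩, ⟨π, h1, h3⟩, hin⟩ :=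
    h (k, n, x1 (𝒟.nd 0 false 0 τ)) _ hp1.fin ⟨r, ⟨hr, hr'⟩, realises_of_subset hpr S K⟩
  obtain ⟨xq, hxq⟩ := hq.cons
  obtain ⟨u, hu, hpu, hqu, hb⟩ := hp.propagate hq hcl
    (fun η hη ζ hζ e l b m e' => hG η hη ζ hζ ⟨e, l, b, m, e', rfl⟩) hin h1
    (fun a ha => h3 a (Or.inl ha)) hx1 hxq hn
    (fun y hy m hm => hxq _ _ _ (copy_bit h3 (Or.inr (mem_fill hy hm)))) hτ (𝒟.par_nd _ _ _ _)
    t' ht' n'
  exact ⟨u, hu, hpu, q, n', t', hqu, hU', hb⟩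

end Data

end Pool.Agent.Work.MP_3181e1_lc.Grp
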