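import Pool.Agent.Work.MP_3181e1_lc.ModelSide
import Pool.Agent.Work.MP_3181e1_lc.G.Defs

/-! The model side of the group version. -/

namespace Pool.Agent.Work.MP_3181e1_lc
open Pool.Agent.Lib.ZFModel Pool.Agent.Work.MP_63c7e0_lc Name

/-- A `CDHSys` whose reals are closed under sums and with index sets of increasing size. -/
structure GSys (P I : Type) [Preorder P] (bit : P → I → ℕ → Bool → Prop) (add : I → I → I)
    (lv : ℕ → Set I) : Prop where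
  sys : CDHSys P I bit
  add_bit : ∀ p i j n a b, bit p i n a → bit p j n b → bit p (add i j) n (xor a b)
  gap0 : ∀ n (K : Set I), K.Countable → ∃ i ∈ lv n, i ∉ K
  gap : ∀ n n', n < n' → ∀ F : I → Set I, (∀ j, (F j).Countable) →
    ∃ i ∈ lv n', ∀ j ∈ lv n, i ∉ F j

section
variable {P I : Type} [Preorder P] (bit : P → I → ℕ → Bool → Prop)

omit [Preorder P] in
def YN (lv : ℕ → Set I) (n : ℕ) : Name P := rName (xN bit) fun i _ => i ∈ lv n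

omit [Preorder P] in
def fN (lv : ℕ → Set I) : Name P :=
  rName (fun n : ℕ => pairN (natN n) (YN bit lv n)) fun _ _ => True

def F2 (φ : Fml) (v : ℕ → Name P) (i j : I) (q : P) : Prop :=
  Forces Unit φ q (cons (xN bit i) (cons (xN bit j) (cons (natN 0) v)))

variable {bit}

theorem F2.mono {φ v} {i j : I} {q r : P} (h : F2 bit φ v i j q) (hr : r ≤ q) :
    F2 bit φ v i j r := Forces.mono h hr

theorem exists_K2 (S : CDHSys P I bit) (φ : Fml) (v : ℕ → Name P) (j : I) :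
    ∃ K : Set I, K.Countable ∧
      ∀ i q, F2 bit φ v i j q → ∃ r, r ≤ q ∧ ∃ i', i' ∈ K ∧ F2 bit φ v i' j r := by
  obtain ⟨T, h1, h2, h3⟩ := S.ccc {q | ∃ i, F2 bit φ v i j q}
  choose f hf using fun q (h : q ∈ T) => h1 h
  refine ⟨Set.range fun q : T => f q.1 q.2, ?_, fun i q h => ?_⟩
  · have := h2.to_subtype
    exact Set.countable_range _
  · obtain ⟨q', hq', r, h4, h5⟩ := h3 q ⟨i, h⟩
    exact ⟨r, h4, f q' hq', ⟨⟨q', hq'⟩, rfl⟩, (hf q' hq').mono h5⟩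

def K2 (S : CDHSys P I bit) (φ : Fml) (v : ℕ → Name P) (j : I) : Set I :=
  (exists_K2 S φ v j).choose

end

/-- Indices of the additional closure conditions and dense sets. -/
inductive Kd2 : Type
  | add | lev (n : ℕ) | seq | unc (φ : Fml) (n : ℕ) | gp (φ : Fml) (n n' : ℕ) | k2 (φ : Fml)
  deriving Countable

section
variable {P I : Type} [Preorder P] {bit : P → I → ℕ → Bool → Prop} (S : CDHSys P I bit)
  (add : I → I → I) (lv : ℕ → Set I)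

def RN2 : Fam P I (Kd ⊕ Kd2) (Name P) := fun k v c a y => match k with
  | .inl k => RN S k v c a y
  | .inr (.lev n) => y = YN bit lv n
  | .inr .seq => y = fN bit lv
  | .inr _ => True

def WW2 : Fam P I (Kd ⊕ Kd2) (P × I) := fun k v c a y => match k with
  | .inl k => WW S k v c a y
  | .inr .add => y.2 = add (a 0) (a 1)
  | .inr (.lev n) => y.2 ∈ lv n ∧ v 0 = xN bit y.2
  | .inr .seq => True
  | .inr (.unc φ n) => y.2 ∈ lv n ∧ y.2 ∉ KK S φ v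
  | .inr (.gp φ n n') => y.2 ∈ lv n' ∧ ∀ j ∈ lv n, y.2 ∉ K2 S φ v j
  | .inr (.k2 φ) => y.2 ∈ K2 S φ v (a 0) ∧ F2 bit φ v y.2 (a 0) y.1

variable {S add lv} {p0 : P} {a0 : I}

def restr (g : GenW p0 a0 (RN2 S lv) (WW2 S add lv)) : GenW p0 a0 (RN S) (WW S) :=
  ⟨g.toGen, g.PN, g.AN, g.p0_mem, g.a0_mem, g.G_p0, g.below, fun k => g.clN (.inl k),
    fun k => g.meet (.inl k), g.nat_mem, g.omega_mem, g.upair_mem, g.zfc⟩

noncomputable def cdOf (g : GenW p0 a0 (RN S) (WW S)) : CD g.toGen.E :=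
  ⟨natM g, g.toGen.cl ⟨_, g.omega_mem⟩, g.toGen.mem_nat g.nat_mem,
    g.toGen.mem_omega g.nat_mem g.omega_mem, g.AN, tt g, xM g, mem_xM g, _, mem_XM g,
    ⟨⟨a0, g.a0_mem⟩⟩, tt_inj g, tt_fresh g, ext_baire g, ext_cdh g, ext_big g⟩

end

/-- The additional external data. -/
structure CD2 {M : Type 1} {E : M → M → Prop} (cd : CD E) where
  add : ∀ i j : cd.J, ∃ k, ∀ n, cd.t k n = xor (cd.t i n) (cd.t j n)
  Y : ℕ → M
  L : ℕ → cd.J → Prop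
  mem_Y : ∀ a n, E a (Y n) ↔ ∃ j, L n j ∧ a = cd.x j
  f : M
  mem_f : ∀ p, E p f ↔ ∃ n, IsPair E p (cd.nat n) (Y n)
  unc : ∀ R : M → M → M → Prop, Dfn E (fun v => R (v 0) (v 1) (v 2)) →
    (∀ i j n, R (cd.x i) (cd.nat n) (cd.nat 0) → R (cd.x j) (cd.nat n) (cd.nat 0) → i = j) →
    ∀ m, ∃ i, L m i ∧ ∀ n, ¬ R (cd.x i) (cd.nat n) (cd.nat 0)
  gap : ∀ R : M → M → M → Prop, Dfn E (fun v => R (v 0) (v 1) (v 2)) →
    (∀ i i' j, R (cd.x i) (cd.x j) (cd.nat 0) → R (cd.x i') (cd.x j) (cd.nat 0) → i = i') →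
    ∀ m m', m < m' → ∃ i, L m' i ∧ ∀ j, L m j → ¬ R (cd.x i) (cd.x j) (cd.nat 0)

theorem GSys.exists_cd {P I : Type} [Preorder P] {bit : P → I → ℕ → Bool → Prop}
    {add : I → I → I} {lv : ℕ → Set I} (G : GSys P I bit add lv) :
    ∃ (M : Type 1) (E : M → M → Prop), IsZFC E ∧ ∃ cd : CD E, Nonempty (CD2 cd) := by
  obtain ⟨p0⟩ := G.sys.neP
  obtain ⟨a0⟩ := G.sys.neI
  obtain ⟨g⟩ := exists_genW p0 a0 (RN2 G.sys lv) (WW2 G.sys add lv)
  have hY : ∀ n, YN bit lv n ∈ g.N := fun n => by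
    obtain ⟨y, hy, h⟩ := g.clN (.inr (.lev n)) [] [] [] mem_list₀ mem_list₀ mem_list₀ ⟨_, rfl⟩
    exact h ▸ hy
  have hf : fN bit lv ∈ g.N := by
    obtain ⟨y, hy, h⟩ := g.clN (.inr .seq) [] [] [] mem_list₀ mem_list₀ mem_list₀ ⟨_, rfl⟩
    exact h ▸ hy
  refine ⟨_, g.toGen.E, g.zfc, cdOf (restr g), ⟨⟨fun i j => ?_, fun n => g.toGen.cl ⟨_, hY n⟩,
    fun n j => j.1 ∈ lv n, fun a n => ?_, g.toGen.cl ⟨_, hf⟩, fun a => ?_, fun R hR hi m => ?_,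
    fun R hR hi m m' hm => ?_⟩⟩⟩
  · obtain ⟨_, _, _, k, hk, h⟩ := g.meet (.inr .add) [] [] [i.1, j.1] mem_list₀ mem_list₀
      (mem_list₂ i.2 j.2) p0 g.G_p0 fun q _ => ⟨q, le_rfl, _, rfl⟩
    have h' : k = add i.1 j.1 := h
    subst h'
    refine ⟨⟨_, hk⟩, fun n => ?_⟩
    obtain ⟨q1, hq1, -, a1⟩ := exists_agree (restr g) i (n + 1) g.G_p0
    obtain ⟨q2, hq2, h2, a2⟩ := exists_agree (restr g) j (n + 1) hq1
    exact tt_eq (restr g) (i := ⟨_, hk⟩) hq2 (G.add_bit _ _ _ _ _ _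
      ((a1.mono G.sys h2) n (Nat.lt_succ_self n)) (a2 n (Nat.lt_succ_self n)))
  · refine (g.toGen.E_rName (hY n) a).trans ⟨?_, ?_⟩
    · rintro ⟨i, p, h1, _, hi, rfl⟩
      obtain ⟨_, _, _, j, hj, h2, h⟩ := g.meet (.inr (.lev n)) [xN bit i] [] [] (mem_list₁ hi)
        mem_list₀ mem_list₀ p0 g.G_p0 fun q _ => ⟨q, le_rfl, i, h1, rfl⟩
      exact ⟨⟨j, hj⟩, h2, congrArg _ (Subtype.ext h)⟩
    · rintro ⟨j, h1, rfl⟩
      exact ⟨j.1, p0, h1, g.G_p0, _, rfl⟩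
  · refine (g.toGen.E_rName hf a).trans ⟨?_, ?_⟩
    · rintro ⟨n, p, _, _, hn, rfl⟩
      exact ⟨n, isPair_pairN (restr g) (g.nat_mem n) (hY n) hn⟩
    · rintro ⟨n, h⟩
      have h5 : pairN (natN n) (YN bit lv n) ∈ g.N :=
        g.upair_mem _ (g.upair_mem _ (g.nat_mem n) _ (g.nat_mem n)) _
          (g.upair_mem _ (g.nat_mem n) _ (hY n))
      exact ⟨n, p0, trivial, g.G_p0, h5,
        pair_unique g.zfc.zf h (isPair_pairN (restr g) (g.nat_mem n) (hY n) h5)⟩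
  · obtain ⟨φ, l, hl, hF⟩ := truthF (restr g) R hR
    obtain ⟨_, _, _, i, hiA, h1, h2⟩ := g.meet (.inr (.unc φ m)) l [] [] hl mem_list₀ mem_list₀
      p0 g.G_p0 fun q _ => by
        obtain ⟨i, h⟩ := G.gap0 m _ (exists_K G.sys φ (envOf emptyName l)).choose_spec.1
        exact ⟨q, le_rfl, i, h⟩
    refine ⟨⟨i, hiA⟩, h1, fun n hn => ?_⟩
    obtain ⟨q, hq, h3⟩ := (hF ⟨i, hiA⟩ n 0).1 hn
    obtain ⟨r, _, hr, j, hj, h4, h5⟩ := g.meet (.inl (.kk φ n 0)) l [] [] hl mem_list₀ mem_list₀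
      q hq fun r hr => (exists_K G.sys φ _).choose_spec.2 i n 0 r (h3.mono hr)
    have := hi ⟨i, hiA⟩ ⟨j, hj⟩ n hn ((hF ⟨j, hj⟩ _ _).2 ⟨r, hr, h5⟩)
    have e : i = j := congrArg Subtype.val this
    exact h2 (e ▸ h4)
  · obtain ⟨φ, l, hl, h⟩ := g.toGen.truth3 R
    have hF : ∀ i j : g.AN, R (xM (restr g) i) (xM (restr g) j) (natM (restr g) 0) ↔
        ∃ p, g.G p ∧ F2 bit φ (envOf emptyName l) i j p := fun i j => h _ _ _
    obtain ⟨_, _, _, i, hiA, h1, h2⟩ := g.meet (.inr (.gp φ m m')) l [] [] hl mem_list₀ mem_list₀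
      p0 g.G_p0 fun q _ => by
        obtain ⟨i, h⟩ := G.gap m m' hm (K2 G.sys φ (envOf emptyName l))
          fun j => (exists_K2 G.sys φ (envOf emptyName l) j).choose_spec.1
        exact ⟨q, le_rfl, i, h⟩
    refine ⟨⟨i, hiA⟩, h1, fun j hj hn => ?_⟩
    obtain ⟨q, hq, h3⟩ := (hF ⟨i, hiA⟩ j).1 hn
    obtain ⟨r, _, hr, i', hi', h4, h5⟩ := g.meet (.inr (.k2 φ)) l [] [j.1] hl mem_list₀
      (mem_list₁ j.2) q hq fun r hr => (exists_K2 G.sys φ _ j.1).choose_spec.2 i r (h3.mono hr)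
    have := hi ⟨i, hiA⟩ ⟨i', hi'⟩ j hn ((hF ⟨i', hi'⟩ j).2 ⟨r, hr, h5⟩)
    have e : i = i' := congrArg Subtype.val this
    exact h2 j.1 hj (e ▸ h4)

section
variable {M : Type 1} {E : M → M → Prop}

set_option synthInstance.maxSize 100000

variable (zf : IsZF E) {cd : CD E} (c2 : CD2 cd)
include zf c2

theorem isSymmSubgroup : IsSymmSubgroup E cd.X := by
  refine ⟨?_, fun a b ha hb => ?_⟩
  · obtain ⟨i⟩ := cd.ne
    obtain ⟨k, hk⟩ := c2.add i i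
    refine ⟨_, xX cd k, fun a ha => ?_⟩
    obtain ⟨n, h, -⟩ := (cd.mem_x _ _).1 ha
    rw [hk, Bool.xor_self] at h
    cases h
  · obtain ⟨i, rfl⟩ := (cd.mem_X _).1 ha
    obtain ⟨j, rfl⟩ := (cd.mem_X _).1 hb
    obtain ⟨k, hk⟩ := c2.add i j
    refine ⟨_, xX cd k, fun m => ?_⟩
    by_cases hm : E m cd.w
    · obtain ⟨n, rfl⟩ := (cd.mem_w _).1 hm
      rw [nat_mem_x zf, nat_mem_x zf, nat_mem_x zf, hk]
      cases cd.t i n <;> cases cd.t j n <;> simp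
    · exact iff_of_false (fun h => hm (x_sub cd k m h)) fun h => h
        (iff_of_false (fun h => hm (x_sub cd i m h)) fun h => hm (x_sub cd j m h))

theorem alephOmegaLe : AlephOmegaLe E cd.X := by
  have := zf.nonempty
  obtain ⟨W, hW⟩ := zf.powerset cd.X
  have hsub : ∀ n, Sub E (c2.Y n) cd.X := fun n a ha => by
    obtain ⟨j, -, rfl⟩ := (c2.mem_Y _ _).1 ha
    exact xX cd j
  have hA : ∀ a b, App E c2.f a b ↔ ∃ n, a = cd.nat n ∧ b = c2.Y n := by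
    intro a b
    constructor
    · rintro ⟨p, hp, h⟩
      obtain ⟨n, h'⟩ := (c2.mem_f p).1 hp
      exact ⟨n, pair_inj zf h h'⟩
    · rintro ⟨n, rfl, rfl⟩
      obtain ⟨p, hp⟩ := exists_pair zf (cd.nat n) (c2.Y n)
      exact ⟨p, (c2.mem_f p).2 ⟨n, hp⟩, hp⟩
  refine ⟨cd.w, W, c2.f, isOmega_w zf cd, ⟨fun p hp => ?_, fun a ha => ?_,
    fun a b b' h h' => ?_⟩, fun a b h => ?_, fun a a' b b' ha h h' => ?_⟩
  · obtain ⟨n, h⟩ := (c2.mem_f p).1 hp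
    exact ⟨_, _, (cd.mem_w _).2 ⟨n, rfl⟩, (hW _).2 (hsub n), h⟩
  · obtain ⟨n, rfl⟩ := (cd.mem_w _).1 ha
    exact ⟨_, (hA _ _).2 ⟨n, rfl, rfl⟩⟩
  · obtain ⟨n, rfl, rfl⟩ := (hA _ _).1 h
    obtain ⟨n', e, rfl⟩ := (hA _ _).1 h'
    rw [nat_inj zf cd e]
  · obtain ⟨n, rfl, rfl⟩ := (hA _ _).1 h
    refine ⟨hsub n, fun ⟨w, f, hw, hf⟩ => ?_⟩
    rw [omega_eq zf cd hw] at hf
    obtain ⟨i, h1, h2⟩ := c2.unc (fun a b _ => App E f a b) inferInstance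
      (fun i j n h h' => x_inj zf cd (hf.2 _ _ _ h h')) n
    obtain ⟨b, hb⟩ := hf.1.2.1 _ ((c2.mem_Y _ _).2 ⟨i, h1, rfl⟩)
    obtain ⟨k, rfl⟩ := (cd.mem_w _).1 (hf.1.mem zf hb).2
    exact h2 k hb
  · obtain ⟨n, rfl, rfl⟩ := (hA _ _).1 h
    obtain ⟨n', rfl, rfl⟩ := (hA _ _).1 h'
    obtain ⟨m, hm, e⟩ := (cd.mem_nat _ _).1 ha
    obtain rfl := nat_inj zf cd e
    rintro ⟨f, hf⟩
    obtain ⟨i, h1, h2⟩ := c2.gap (fun a b _ => App E f a b) inferInstance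
      (fun i i' j h h' => x_inj zf cd (hf.2 _ _ _ h h')) n n' hm
    obtain ⟨b, hb⟩ := hf.1.2.1 _ ((c2.mem_Y _ _).2 ⟨i, h1, rfl⟩)
    obtain ⟨j, hj, rfl⟩ := (c2.mem_Y _ _).1 (hf.1.mem zf hb).2
    exact h2 j hj hb

end

/-- The model side: a `GSys` yields a model of ZFC with a crowded Baire CDH subgroup of the Cantor
group whose size is at least `ℵ_ω` and less than the continuum. -/
theorem GSys.model {P I : Type} [Preorder P] {bit : P → I → ℕ → Bool → Prop}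
    {add : I → I → I} {lv : ℕ → Set I} (G : GSys P I bit add lv) :
    ∃ (M : Type 1) (E : M → M → Prop), IsZFC E ∧
      ∃ X τ : M, IsTop E X τ ∧ IsCantorSubspace E X τ ∧ IsSymmSubgroup E X ∧ IsCrowded E X τ ∧
        IsBaire E X τ ∧ IsCDH E X τ ∧ AlephOmegaLe E X ∧ LtContinuum E X := by
  obtain ⟨M, E, zfc, cd, ⟨c2⟩⟩ := G.exists_cd
  obtain ⟨τ, h1, h2⟩ := exists_tau zfc.zf cd
  exact ⟨M, E, zfc, cd.X, τ, isTop h2, h1, isSymmSubgroup zfc.zf c2, isCrowded zfc.zf h2,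
    isBaire zfc.zf h2, isCDH zfc.zf h2, alephOmegaLe zfc.zf c2, ltContinuum zfc.zf⟩

end Pool.Agent.Work.MP_3181e1_lc
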