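import Pool.Agent.Work.MP_3181e1_lc.G.Vec

/-! The forcing poset for the group version: finite sets of bits of generators, of edges between
formal sums of generators, and of bits of auxiliary Cohen reals. -/

namespace Pool.Agent.Work.MP_3181e1_lc.Grp

open Cardinal

inductive Atom (X J : Type) : Type
  | bit (g : X) (k : ℕ) (b : Bool) : Atom X J
  | edge (η : J) (y z : V X) : Atom X J
  | cb (η : J) (k : ℕ) (b : Bool) : Atom X J

open Atom

def Atom.pts {X J : Type} : Atom X J → Set X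
  | bit g _ _ => {g}
  | edge _ y z => ↑y.support ∪ ↑z.support
  | cb _ _ _ => ∅

def Atom.cs {X J : Type} : Atom X J → Set J
  | bit _ _ _ => ∅
  | edge η _ _ => {η}
  | cb η _ _ => {η}

def Atom.lev {X J : Type} : Atom X J → ℕ
  | bit _ k _ => k
  | edge _ _ _ => 0
  | cb _ k _ => k

noncomputable def Atom.map {X Y J : Type} (f : X → Y) : Atom X J → Atom Y J
  | bit g k b => bit (f g) k b
  | edge η y z => edge η (y.mapDomain f) (z.mapDomain f)
  | cb η k b => cb η k b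

theorem Atom.pts_finite {X J : Type} (a : Atom X J) : a.pts.Finite := by
  cases a <;> simp [Atom.pts]

theorem Atom.cs_finite {X J : Type} (a : Atom X J) : a.cs.Finite := by
  cases a <;> simp [Atom.cs]

theorem Atom.map_map {X Y Z J : Type} (f : X → Y) (h : Y → Z) (a : Atom X J) :
    (a.map f).map h = a.map (h ∘ f) := by
  cases a <;> simp [Atom.map, Finsupp.mapDomain_comp]

theorem Atom.map_congr {X Y J : Type} {f h : X → Y} {a : Atom X J} (e : ∀ g ∈ a.pts, f g = h g) :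
    a.map f = a.map h := by
  rcases a with ⟨g, k, b⟩ | ⟨η, y, z⟩ | ⟨η, k, b⟩
  · simp only [Atom.map]
    rw [e g rfl]
  · simp only [Atom.map]
    rw [Finsupp.mapDomain_congr fun g hg => e g (Or.inl hg),
      Finsupp.mapDomain_congr (v := z) fun g hg => e g (Or.inr hg)]
  · rfl

theorem Atom.map_id {X J : Type} (a : Atom X J) : a.map id = a := by
  cases a <;> simp [Atom.map]

theorem Atom.cs_map {X Y J : Type} (f : X → Y) (a : Atom X J) : (a.map f).cs = a.cs := by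
  cases a <;> rfl

theorem Atom.pts_map {X Y J : Type} (f : X → Y) (a : Atom X J) : (a.map f).pts ⊆ f '' a.pts := by
  classical
  rcases a with ⟨g, k, b⟩ | ⟨η, y, z⟩ | ⟨η, k, b⟩
  · rintro _ rfl
    exact ⟨g, rfl, rfl⟩
  · rintro w (hw | hw)
    · obtain ⟨g, hg, rfl⟩ := Finset.mem_image.1 (Finsupp.mapDomain_support hw)
      exact ⟨g, Or.inl hg, rfl⟩
    · obtain ⟨g, hg, rfl⟩ := Finset.mem_image.1 (Finsupp.mapDomain_support hw)
      exact ⟨g, Or.inr hg, rfl⟩
  · exact Set.empty_subset _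

section general
variable {X J : Type}

def pts (p : Set (Atom X J)) : Set X := ⋃ a ∈ p, a.pts

theorem pts_finite {p : Set (Atom X J)} (hp : p.Finite) : (pts p).Finite :=
  hp.biUnion fun a _ => a.pts_finite

theorem pts_mono {p q : Set (Atom X J)} (h : p ⊆ q) : pts p ⊆ pts q :=
  Set.biUnion_subset_biUnion_left h

theorem mem_pts_bit {p : Set (Atom X J)} {y k b} (h : bit y k b ∈ p) : y ∈ pts p :=
  Set.mem_biUnion h (by simp [Atom.pts])

theorem sup_left {p : Set (Atom X J)} {η y z} (h : edge η y z ∈ p) : Sup y (pts p) :=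
  fun _ hg => Set.mem_biUnion h (Or.inl hg)

theorem sup_right {p : Set (Atom X J)} {η y z} (h : edge η y z ∈ p) : Sup z (pts p) :=
  fun _ hg => Set.mem_biUnion h (Or.inr hg)

theorem exists_bound {p : Set (Atom X J)} (hp : p.Finite) :
    ∃ N, ∀ y k b, bit y k b ∈ p → k < N := by
  obtain ⟨N, hN⟩ := (hp.image Atom.lev).bddAbove
  exact ⟨N + 1, fun y k b h => Nat.lt_succ_of_le (hN (Set.mem_image_of_mem _ h))⟩

theorem exists_bound_cb {p : Set (Atom X J)} (hp : p.Finite) :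
    ∃ N, ∀ y k b, cb y k b ∈ p → k < N := by
  obtain ⟨N, hN⟩ := (hp.image Atom.lev).bddAbove
  exact ⟨N + 1, fun y k b h => Nat.lt_succ_of_le (hN (Set.mem_image_of_mem _ h))⟩

def Cons (x : X → Seq) (p : Set (Atom X J)) : Prop := ∀ y k b, bit y k b ∈ p → x y k = b

def Iso (x : X → Seq) (p : Set (Atom X J)) : Prop :=
  ∀ η y z y' z', edge η y z ∈ p → edge η y' z' ∈ p → (y = y' ∧ z = z') ∨
    Sep (ev x y) (ev x z) (ev x y') (ev x z')

def CbCons (p : Set (Atom X J)) : Prop := ∀ η k, cb η k true ∈ p → cb η k false ∈ p → False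

/-- `R` consists of bits of generators only. -/
def OnlyBits (R : Set (Atom X J)) : Prop := ∀ a ∈ R, ∃ y k b, a = bit y k b

theorem OnlyBits.edge {R : Set (Atom X J)} (h : OnlyBits R) {η y z} : edge η y z ∉ R := fun e => by
  obtain ⟨_, _, _, h⟩ := h _ e; cases h

theorem OnlyBits.cb {R : Set (Atom X J)} (h : OnlyBits R) {η k b} : cb η k b ∉ R := fun e => by
  obtain ⟨_, _, _, h⟩ := h _ e; cases h

theorem Cons.mono {x : X → Seq} {p q : Set (Atom X J)} (h : Cons x q) (hp : p ⊆ q) : Cons x p :=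
  fun y k b hb => h y k b (hp hb)

theorem Cons.union {x : X → Seq} {p q : Set (Atom X J)} (h : Cons x p) (h' : Cons x q) :
    Cons x (p ∪ q) := fun y k b hb => hb.elim (h y k b) (h' y k b)

theorem Cons.of_agree {x x' : X → Seq} {p : Set (Atom X J)} (h : Cons x p) {N : ℕ}
    (hN : ∀ y k b, bit y k b ∈ p → k < N) (hx : ∀ g, agree N (x' g) (x g)) : Cons x' p :=
  fun y k b hb => (hx y k (hN y k b hb)).trans (h y k b hb)

theorem Iso.wi {x : X → Seq} {p : Set (Atom X J)} (h : Iso x p) {η y z y' z'}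
    (h1 : edge η y z ∈ p) (h2 : edge η y' z' ∈ p) :
    WI (ev x y) (ev x z) (ev x y') (ev x z') := by
  rcases h η y z y' z' h1 h2 with ⟨rfl, rfl⟩ | h
  · exact WI.refl _ _
  · exact h.2

def fill (x : X → Seq) (F : Set X) (N : ℕ) : Set (Atom X J) :=
  {a | ∃ y ∈ F, ∃ k < N, a = bit y k (x y k)}

theorem fill_finite (x : X → Seq) {F : Set X} (hF : F.Finite) (N : ℕ) :
    (fill x F N : Set (Atom X J)).Finite := by
  refine ((hF.prod (Set.finite_lt_nat N)).image fun a => bit a.1 a.2 (x a.1 a.2)).subset ?_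
  rintro _ ⟨y, hy, k, hk, rfl⟩
  exact ⟨(y, k), ⟨hy, hk⟩, rfl⟩

theorem cons_fill (x : X → Seq) (F : Set X) (N : ℕ) : Cons x (fill x F N : Set (Atom X J)) := by
  rintro y k b ⟨y', _, k', _, h⟩
  cases h; rfl

theorem mem_fill {x : X → Seq} {F : Set X} {N : ℕ} {y k} (hy : y ∈ F) (hk : k < N) :
    bit y k (x y k) ∈ (fill x F N : Set (Atom X J)) := ⟨y, hy, k, hk, rfl⟩

theorem onlyBits_fill (x : X → Seq) (F : Set X) (N : ℕ) :
    OnlyBits (fill x F N : Set (Atom X J)) := by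
  rintro _ ⟨y, _, k, _, rfl⟩
  exact ⟨_, _, _, rfl⟩

theorem Cons.agree_fill {x x' : X → Seq} {F : Set X} {N : ℕ} {p : Set (Atom X J)}
    (h : Cons x' p) (hp : fill x F N ⊆ p) {y : V X} (hy : Sup y F) :
    agree N (ev x' y) (ev x y) :=
  ev_agree fun g hg k hk => h g k _ (hp (mem_fill (hy g hg) hk))

end general

/-- The ground model data: generators, almost disjoint functions and the bookkeeping. -/
structure Data (X T J : Type) where
  lev : X → ℕ
  nd : V X → Bool → ℕ → T → X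
  nd_inj : ∀ w b n t w' b' n' t', nd w b n t = nd w' b' n' t' → w = w' ∧ b = b' ∧ n = n' ∧ t = t'
  lev_nd : ∀ w b n t, ∀ g ∈ w.support, lev g < lev (nd w b n t)
  g : J → V X → Bool → ℕ → T
  A : J → Set X
  L : J → Set (Finset (Atom X J) × V X × V X)

variable {X T J : Type} [LinearOrder J] (𝒟 : Data X T J)

namespace Data

def up (η : J) (w : V X) (b : Bool) (n : ℕ) : X := 𝒟.nd w b n (𝒟.g η w b n)

open Classical in
noncomputable def par (i : X) : V X :=
  if h : ∃ w, ∃ b n t, i = 𝒟.nd w b n t then h.choose else 0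

omit [LinearOrder J] in
theorem par_nd (w b n t) : 𝒟.par (𝒟.nd w b n t) = w := by
  have h : ∃ w', ∃ b' n' t', 𝒟.nd w b n t = 𝒟.nd w' b' n' t' := ⟨w, b, n, t, rfl⟩
  rw [par, dif_pos h]
  obtain ⟨b', n', t', e⟩ := h.choose_spec
  exact (𝒟.nd_inj _ _ _ _ _ _ _ _ e).1.symm

omit [LinearOrder J] in
theorem par_up (η w b n) : 𝒟.par (𝒟.up η w b n) = w := 𝒟.par_nd _ _ _ _

omit [LinearOrder J] in
theorem lev_par (i : X) : ∀ g ∈ (𝒟.par i).support, 𝒟.lev g < 𝒟.lev i := by
  by_cases h : ∃ w, ∃ b n t, i = 𝒟.nd w b n t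
  · obtain ⟨w, b, n, t, rfl⟩ := h
    rw [par_nd]
    exact 𝒟.lev_nd w b n t
  · rw [par, dif_neg h]
    simp

def Forest (η : J) (y z : V X) : Prop :=
  (∃ n, z = sg (𝒟.up η y true n)) ∨ ∃ n, y = sg (𝒟.up η z false n)

def Allowed (p : Set (Atom X J)) (η : J) (y z : V X) : Prop :=
  (¬ Sup y (𝒟.A η) ∧ ¬ Sup z (𝒟.A η) ∧ 𝒟.Forest η y z) ∨
  (Sup y (𝒟.A η) ∧ Sup z (𝒟.A η) ∧
    ∃ a, (a, y, z) ∈ 𝒟.L η ∧ (∀ ζ u v, edge ζ u v ∈ a → ζ < η) ∧ ↑a ⊆ p)

structure Valid (p : Set (Atom X J)) : Prop where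
  fin : p.Finite
  cons : ∃ x, Cons x p
  iso : ∀ x, Cons x p → Iso x p
  allowed : ∀ η y z, edge η y z ∈ p → 𝒟.Allowed p η y z
  cbc : CbCons p

variable {𝒟}

theorem Allowed.mono {p q : Set (Atom X J)} {η y z} (h : 𝒟.Allowed p η y z) (hq : p ⊆ q) :
    𝒟.Allowed q η y z := by
  rcases h with h | ⟨h1, h2, a, h3, h4, h5⟩
  · exact Or.inl h
  · exact Or.inr ⟨h1, h2, a, h3, h4, h5.trans hq⟩

theorem valid_empty : 𝒟.Valid ∅ :=
  ⟨Set.finite_empty, ⟨fun _ _ => false, fun _ _ _ h => h.elim⟩, fun _ _ _ _ _ _ _ h => h.elim,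
    fun _ _ _ h => h.elim, fun _ _ h => h.elim⟩

theorem Valid.add_bits {p R : Set (Atom X J)} (hp : 𝒟.Valid p) (hR : R.Finite)
    (hRe : OnlyBits R) {x : X → Seq} (hx : Cons x p) (hxR : Cons x R) :
    𝒟.Valid (p ∪ R) := by
  have he : ∀ {η y z}, edge η y z ∈ p ∪ R → edge η y z ∈ p := fun h =>
    h.elim id fun h => absurd h hRe.edge
  refine ⟨hp.fin.union hR, ⟨x, hx.union hxR⟩, fun x' hx' η y z y' z' h1 h2 => ?_,
    fun η y z h => (hp.allowed η y z (he h)).mono Set.subset_union_left,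
    fun η k h1 h2 => hp.cbc η k (h1.resolve_right hRe.cb) (h2.resolve_right hRe.cb)⟩
  exact hp.iso x' (hx'.mono Set.subset_union_left) η y z y' z' (he h1) (he h2)

theorem Valid.add_fill {p : Set (Atom X J)} (hp : 𝒟.Valid p) {x : X → Seq}
    (hx : Cons x p) {F : Set X} (hF : F.Finite) (N : ℕ) : 𝒟.Valid (p ∪ fill x F N) :=
  hp.add_bits (fill_finite x hF N) (onlyBits_fill x F N) hx (cons_fill x F N)

/-- Prescribing the bits of a new generator. -/
theorem Valid.add_point {p : Set (Atom X J)} (hp : 𝒟.Valid p) {z : X}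
    (hz : z ∉ pts p) (t : Seq) (N : ℕ) :
    ∃ q, 𝒟.Valid q ∧ p ⊆ q ∧ ∀ x, Cons x q → agree N (ev x (sg z)) t := by
  classical
  obtain ⟨x, hx⟩ := hp.cons
  have hx' : Cons (Function.update x z t) p := fun y k b h => by
    have hyz : y ≠ z := fun e => hz (e ▸ mem_pts_bit h)
    rw [Function.update_of_ne hyz]
    exact hx y k b h
  refine ⟨_, hp.add_fill hx' (Set.finite_singleton z) N, Set.subset_union_left,
    fun x' h => ?_⟩
  have := h.agree_fill Set.subset_union_right (y := sg z) (sup_sg.2 rfl)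
  rwa [ev_sg (Function.update x z t), Function.update_self] at this

/-- Amalgamation. -/
theorem Valid.amalg {p q R : Set (Atom X J)} (hp : 𝒟.Valid p) (hq : 𝒟.Valid q)
    (hR : R.Finite) (hRe : OnlyBits R) (S : Set X) {t : X → Seq}
    (htp : Cons t p) (htq : Cons t q) (htR : Cons t R)
    (hcb : ∀ η k b b', cb η k b ∈ p → cb η k b' ∈ q → cb η k b ∈ q)
    (h : ∀ η y z y' z', edge η y z ∈ p → edge η y' z' ∈ q → edge η y z ∉ q →
      ¬ Sup y S ∧ ¬ Sup z S ∧ 𝒟.Forest η y z ∧ Sup y' S ∧ Sup z' S ∧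
        WI (ev t y) (ev t z) (ev t y') (ev t z')) :
    ∃ u, 𝒟.Valid u ∧ p ⊆ u ∧ q ⊆ u ∧ R ⊆ u := by
  classical
  have hU : (p ∪ q ∪ R).Finite := (hp.fin.union hq.fin).union hR
  obtain ⟨N, hN⟩ := exists_bound hU
  obtain ⟨δ, M, d1, d2, d3, d4⟩ := exists_delta 𝒟.lev 𝒟.par 𝒟.lev_par S (pts_finite hU) N
  let x : X → Seq := glue N t δ
  have hx : Cons x (p ∪ q ∪ R) := ((htp.union htq).union htR).of_agree hN (glue_agree N t δ)
  have he : ∀ {η y z}, edge η y z ∈ p ∪ q ∪ R ∪ fill x (pts (p ∪ q ∪ R)) M →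
      edge η y z ∈ p ∨ edge η y z ∈ q := fun h =>
    (h.resolve_right (onlyBits_fill _ _ _).edge).resolve_right hRe.edge
  have hc : ∀ {η k b}, cb η k b ∈ p ∪ q ∪ R ∪ fill x (pts (p ∪ q ∪ R)) M →
      cb η k b ∈ p ∨ cb η k b ∈ q := fun h =>
    (h.resolve_right (onlyBits_fill _ _ _).cb).resolve_right hRe.cb
  have hpu : p ⊆ p ∪ q ∪ R ∪ fill x (pts (p ∪ q ∪ R)) M := fun a ha =>
    Or.inl (Or.inl (Or.inl ha))
  have hqu : q ⊆ p ∪ q ∪ R ∪ fill x (pts (p ∪ q ∪ R)) M := fun a ha =>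
    Or.inl (Or.inl (Or.inr ha))
  refine ⟨p ∪ q ∪ R ∪ fill x (pts (p ∪ q ∪ R)) M,
    ⟨hU.union (fill_finite x (pts_finite hU) _), ⟨x, hx.union (cons_fill _ _ _)⟩, ?_, ?_, ?_⟩,
    hpu, hqu, fun a ha => Or.inl (Or.inr ha)⟩
  · intro x' hx'
    have key : ∀ η y z y' z', edge η y z ∈ p → edge η y' z' ∈ q → edge η y z ∉ q →
        Sep (ev x' y) (ev x' z) (ev x' y') (ev x' z') := by
      intro η y z y' z' h1 h2 h3
      obtain ⟨a1, a2, aF, a3, a4, hw⟩ := h η y z y' z' h1 h2 h3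
      have s1 : Sup y (pts (p ∪ q ∪ R)) := sup_left (Or.inl (Or.inl h1))
      have s2 : Sup z (pts (p ∪ q ∪ R)) := sup_right (Or.inl (Or.inl h1))
      have s3 : Sup y' (pts (p ∪ q ∪ R)) := sup_left (Or.inl (Or.inr h2))
      have s4 : Sup z' (pts (p ∪ q ∪ R)) := sup_right (Or.inl (Or.inr h2))
      have z1 : ∀ k, ev δ y' k = false := fun k => ev_false fun g hg => d2 g (a3 g hg) k
      have z2 : ∀ k, ev δ z' k = false := fun k => ev_false fun g hg => d2 g (a4 g hg) k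
      have hyz : ∀ k, (∀ j < k, ev δ y j = false) ↔ ∀ j < k, ev δ z j = false := by
        intro k
        rcases aF with ⟨n, rfl⟩ | ⟨n, rfl⟩
        · have := d4 _ (sup_sg.1 s2) (fun e => a2 (sup_sg.2 e)) (by rwa [par_up])
            (by rwa [par_up]) k
          rw [par_up] at this
          rw [ev_sg]
          exact this.symm
        · have := d4 _ (sup_sg.1 s1) (fun e => a1 (sup_sg.2 e)) (by rwa [par_up])
            (by rwa [par_up]) k
          rw [par_up] at this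
          rw [ev_sg]
          exact this
      have hw' : WI (ev x y) (ev x z) (ev x y') (ev x z') := wi_glue d1 z1 z2 hyz hw
      have hag : ∀ w : V X, Sup w (pts (p ∪ q ∪ R)) → agree M (ev x' w) (ev x w) := fun w hw =>
        hx'.agree_fill Set.subset_union_right hw
      refine sep_of_wi hw' (N := M) (fun hc => ?_) (hag _ s1) (hag _ s2) (hag _ s3) (hag _ s4)
      obtain ⟨k, hk, hk'⟩ := d3 y s1 a1
      have hkN : ¬ k < N := fun hlt => by
        rw [ev_false fun g _ => d1 g k hlt] at hk'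
        cases hk'
      have := hc k hk
      rw [ev_glue_ge _ _ _ hkN, ev_glue_ge _ _ _ hkN, hk', z1] at this
      cases this
    intro η y z y' z' h1 h2
    by_cases c1 : edge η y z ∈ q
    · by_cases c2 : edge η y' z' ∈ q
      · exact hq.iso x' (hx'.mono hqu) η y z y' z' c1 c2
      · exact Or.inr (key η y' z' y z ((he h2).resolve_right c2) c1 c2).symm
    · have c3 := (he h1).resolve_right c1
      rcases he h2 with c2 | c2
      · exact hp.iso x' (hx'.mono hpu) η y z y' z' c3 c2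
      · exact Or.inr (key η y z y' z' c3 c2 c1)
  · intro η y z h
    rcases he h with h | h
    · exact (hp.allowed η y z h).mono hpu
    · exact (hq.allowed η y z h).mono hqu
  · intro η k h1 h2
    rcases hc h1 with h1 | h1 <;> rcases hc h2 with h2 | h2
    · exact hp.cbc η k h1 h2
    · exact hq.cbc η k (hcb _ _ _ _ h1 h2) h2
    · exact hq.cbc η k h1 (hcb _ _ _ _ h2 h1)
    · exact hq.cbc η k h1 h2

/-- Keep the edges of `p` and the part of the extension `q` below `η`. -/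
def reset (p q : Set (Atom X J)) (η : J) : Set (Atom X J) :=
  {a | a ∈ q ∧ (a ∈ p ∨ ∀ ζ u v, a = edge ζ u v → ζ < η)}

theorem cons_of_reset {p q : Set (Atom X J)} {η : J} {x : X → Seq} (h : Cons x (reset p q η)) :
    Cons x q := fun w k b hb => h w k b ⟨hb, Or.inr fun _ _ _ e => by cases e⟩

theorem Valid.reset {p q : Set (Atom X J)} (hp : 𝒟.Valid p) (hq : 𝒟.Valid q) (hpq : p ⊆ q)
    (η : J) : 𝒟.Valid (reset p q η) := by
  have hs : Data.reset p q η ⊆ q := fun a ha => ha.1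
  obtain ⟨x, hx⟩ := hq.cons
  refine ⟨hq.fin.subset hs, ⟨x, hx.mono hs⟩, fun x' hx' ζ y z y' z' h1 h2 => ?_,
    fun ζ y z h => ?_, fun ζ k h1 h2 => hq.cbc ζ k h1.1 h2.1⟩
  · exact hq.iso x' (cons_of_reset hx') ζ y z y' z' h1.1 h2.1
  · rcases h.2 with h1 | h1
    · exact (hp.allowed ζ y z h1).mono fun a ha => ⟨hpq ha, Or.inl ha⟩
    · rcases hq.allowed ζ y z h.1 with h2 | ⟨h2, h3, a, h4, h5, h6⟩
      · exact Or.inl h2
      · refine Or.inr ⟨h2, h3, a, h4, h5, fun c hc => ⟨h6 hc, Or.inr ?_⟩⟩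
        rintro ξ u v rfl
        exact (h5 ξ u v hc).trans (h1 ζ y z rfl)

theorem Valid.add_edge {p : Set (Atom X J)} (hp : 𝒟.Valid p) {η y z}
    (hs : ∀ x, Cons x p → ∀ y' z', edge η y' z' ∈ p →
      Sep (ev x y) (ev x z) (ev x y') (ev x z'))
    (ha : 𝒟.Allowed p η y z) : 𝒟.Valid (insert (edge η y z) p) := by
  obtain ⟨x, hx⟩ := hp.cons
  have hc : ∀ x, Cons x (insert (edge η y z) p) → Cons x p := fun x h =>
    h.mono (Set.subset_insert _ _)
  refine ⟨hp.fin.insert _, ⟨x, fun w k b h => ?_⟩, fun x' hx' ζ u v u' v' h1 h2 => ?_,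
    fun ζ u v h => ?_, fun ζ k h1 h2 => ?_⟩
  · rcases h with h | h
    · cases h
    · exact hx w k b h
  · rcases h1 with h1 | h1 <;> rcases h2 with h2 | h2
    · cases h1; cases h2; exact Or.inl ⟨rfl, rfl⟩
    · cases h1; exact Or.inr (hs x' (hc x' hx') u' v' h2)
    · cases h2; exact Or.inr (hs x' (hc x' hx') u v h1).symm
    · exact hp.iso x' (hc x' hx') ζ u v u' v' h1 h2
  · rcases h with h | h
    · cases h; exact ha.mono (Set.subset_insert _ _)
    · exact (hp.allowed ζ u v h).mono (Set.subset_insert _ _)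
  · exact hp.cbc ζ k (h1.resolve_left fun e => by cases e) (h2.resolve_left fun e => by cases e)

/-- The basic open set in which the partner of `y` has to be chosen. -/
theorem Valid.target {p : Set (Atom X J)} (hp : 𝒟.Valid p) (Rel : V X → V X → Prop)
    (hRel : ∀ u v, Rel u v → Sup u (pts p) ∧ Sup v (pts p))
    (hwi : ∀ x, Cons x p → ∀ u v u' v', Rel u v → Rel u' v' →
      WI (ev x u) (ev x v) (ev x u') (ev x v'))
    (y : V X) (hy : ∀ v, ¬ Rel y v) :
    ∃ q, 𝒟.Valid q ∧ p ⊆ q ∧ (∀ η u v, edge η u v ∈ q → edge η u v ∈ p) ∧ ∃ (N : ℕ) (t : Seq),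
      ∀ x, Cons x q → ∀ b, agree N b t → ∀ u v, Rel u v →
        Sep (ev x y) b (ev x u) (ev x v) := by
  classical
  obtain ⟨x0, hx0⟩ := hp.cons
  obtain ⟨N, hN⟩ := exists_bound hp.fin
  have hF : (pts p ∪ ↑y.support).Finite := (pts_finite hp.fin).union y.support.finite_toSet
  obtain ⟨x1, M, h1, h2⟩ := sep_points x0 N hF
  have hx1 : Cons x1 p := hx0.of_agree hN h1
  obtain ⟨t, ht⟩ := exists_ext (fun a b => ∃ u v, Rel u v ∧ a = ev x1 u ∧ b = ev x1 v)
    (by
      rintro _ _ _ _ ⟨u, v, h, rfl, rfl⟩ ⟨u', v', h', rfl, rfl⟩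
      exact hwi x1 hx1 u v u' v' h h') (ev x1 y)
  refine ⟨_, hp.add_fill hx1 hF M, Set.subset_union_left,
    fun η u v h => h.resolve_right (onlyBits_fill _ _ _).edge, M, t,
    fun x hx b hb u v h => ?_⟩
  have hag : ∀ w : V X, Sup w (pts p ∪ ↑y.support) → agree M (ev x w) (ev x1 w) := fun w hw =>
    hx.agree_fill Set.subset_union_right hw
  have s1 : Sup y (pts p ∪ ↑y.support) := fun g hg => Or.inr hg
  have s2 : Sup u (pts p ∪ ↑y.support) := (hRel u v h).1.mono Set.subset_union_left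
  have s3 : Sup v (pts p ∪ ↑y.support) := (hRel u v h).2.mono Set.subset_union_left
  exact sep_of_wi (ht _ _ ⟨u, v, h, rfl, rfl⟩) (N := M) (h2 y u s1 s2 fun e => hy v (e ▸ h))
    (hag _ s1) hb (hag _ s2) (hag _ s3)

/-- Separating two points. -/
theorem Valid.separate {p : Set (Atom X J)} (hp : 𝒟.Valid p) {y z : V X} (h : y ≠ z) :
    ∃ q, 𝒟.Valid q ∧ p ⊆ q ∧ ∃ m b, ∀ x, Cons x q → ev x y m = b ∧ ev x z m = !b := by
  classical
  obtain ⟨x0, hx0⟩ := hp.cons
  obtain ⟨N, hN⟩ := exists_bound hp.fin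
  have hF : ((↑y.support : Set X) ∪ ↑z.support).Finite :=
    y.support.finite_toSet.union z.support.finite_toSet
  obtain ⟨x1, M, h1, h2⟩ := sep_points x0 N hF
  have s1 : Sup y (↑y.support ∪ ↑z.support) := fun g hg => Or.inl hg
  have s2 : Sup z (↑y.support ∪ ↑z.support) := fun g hg => Or.inr hg
  have h3 := h2 y z s1 s2 h
  simp only [agree, not_forall] at h3
  obtain ⟨m, hm, h3⟩ := h3
  refine ⟨_, hp.add_fill (hx0.of_agree hN h1) hF M, Set.subset_union_left, m, ev x1 y m,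
    fun x hx => ⟨hx.agree_fill Set.subset_union_right s1 m hm, ?_⟩⟩
  rw [hx.agree_fill Set.subset_union_right s2 m hm]
  revert h3
  cases ev x1 y m <;> cases ev x1 z m <;> simp

/-- Separating two auxiliary reals. -/
theorem Valid.separate_cb {p : Set (Atom X J)} (hp : 𝒟.Valid p) {η ζ : J} (h : η ≠ ζ) :
    ∃ q, 𝒟.Valid q ∧ p ⊆ q ∧ ∃ m, cb η m true ∈ q ∧ cb ζ m false ∈ q := by
  obtain ⟨N, hN⟩ := exists_bound_cb hp.fin
  obtain ⟨x, hx⟩ := hp.cons
  have hs : p ⊆ insert (cb η N true) (insert (cb ζ N false) p) :=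
    (Set.subset_insert _ _).trans (Set.subset_insert _ _)
  have he : ∀ {ξ y z}, edge ξ y z ∈ insert (cb η N true) (insert (cb ζ N false) p) →
      edge ξ y z ∈ p := fun h =>
    (h.resolve_left fun e => by cases e).resolve_left fun e => by cases e
  refine ⟨_, ⟨(hp.fin.insert _).insert _, ⟨x, fun w k b h => hx w k b ?_⟩,
    fun x' hx' ξ y z y' z' h1 h2 => hp.iso x' (hx'.mono hs) ξ y z y' z' (he h1) (he h2),
    fun ξ y z h => (hp.allowed ξ y z (he h)).mono hs, fun ξ k h1 h2 => ?_⟩, hs, N,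
    Or.inl rfl, Or.inr (Or.inl rfl)⟩
  · exact (h.resolve_left fun e => by cases e).resolve_left fun e => by cases e
  · rcases h1 with h1 | h1 | h1
    · cases h1
      rcases h2 with h2 | h2 | h2
      · cases h2
      · cases h2; exact h rfl
      · exact lt_irrefl _ (hN _ _ _ h2)
    · cases h1
    · rcases h2 with h2 | h2 | h2
      · cases h2
      · cases h2; exact lt_irrefl _ (hN _ _ _ h1)
      · exact hp.cbc ξ k h1 h2

end Data

end Pool.Agent.Work.MP_3181e1_lc.Grp
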