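import Pool.Agent.Work.MP_3181e1_lc.G.CDH
import Pool.Agent.Work.MP_3181e1_lc.G.Model
import Pool.Agent.Work.MP_3181e1_lc.Sys

/-! The ground model data of the group version exist. -/

namespace Pool.Agent.Work.MP_3181e1_lc.Grp

open Cardinal Order Grp.Atom

/-- The cardinals `ℵ₁, ℵ₂, …`. -/
noncomputable def cn : ℕ → Cardinal.{0}
  | 0 => succ ℵ₀
  | n + 1 => succ (cn n)

theorem cn_strictMono : StrictMono cn := strictMono_nat_of_lt_succ fun _ => lt_succ _

theorem aleph0_lt_cn (n : ℕ) : ℵ₀ < cn n :=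
  (lt_succ ℵ₀).trans_le (cn_strictMono.monotone (Nat.zero_le n))

theorem exists_gsys : ∃ (P I : Type) (_ : Preorder P) (bit : P → I → ℕ → Bool → Prop)
    (add : I → I → I) (lv : ℕ → Set I), GSys P I bit add lv := by
  classical
  let μ : Cardinal.{0} := 2 ^ sum cn
  have hs : ∀ n, cn n ≤ sum cn := fun n => by simpa using le_sum cn n
  have hs0 : ℵ₀ ≤ sum cn := (aleph0_lt_cn 0).le.trans (hs 0)
  have hcμ : 𝔠 ≤ μ := by
    rw [← two_power_aleph0]
    exact power_le_power_left two_ne_zero hs0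
  have h0 : ℵ₀ ≤ μ := aleph0_le_continuum.trans hcμ
  have hμp : μ ^ ℵ₀ ≤ μ := by
    simp only [μ]
    rw [← power_mul, mul_aleph0_eq hs0]
  have hcn : ∀ n, cn n ≤ μ := fun n => (hs n).trans (cantor _).le
  have h1 : ℵ₀ ≤ succ μ := h0.trans (le_succ _)
  have h2 : ℵ₀ ≤ succ (succ μ) := h1.trans (le_succ _)
  have hp : succ (succ μ) ^ ℵ₀ ≤ succ (succ μ) := succ_power h1 (succ_power h0 hμp)
  let T := (succ μ).ord.ToType
  let J := (succ (succ μ)).ord.ToType
  have hT : #T = succ μ := mk_ord_toType _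
  have hJ : #J = succ (succ μ) := mk_ord_toType _
  have hX : #(ℕ × T) ≤ succ μ := by
    simp only [mk_prod, lift_id, hT]
    exact mul_le_of_le h1 (mk_le_aleph0.trans h1) le_rfl
  have hI : #(V (ℕ × T)) ≤ succ μ := by
    have := small_vec h1 (small_univ hX)
    rwa [Set.eq_univ_of_forall (s := {y : V (ℕ × T) | Sup y Set.univ})
      fun y _ _ => Set.mem_univ _, mk_univ] at this
  have hI2 : #(V (ℕ × T)) ≤ succ (succ μ) := hI.trans (le_succ _)
  have hAt : #(Atom (ℕ × T) J) ≤ succ (succ μ) := by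
    have := small_inside h2 (small_univ (hX.trans (le_succ _))) (small_univ hJ.le)
    rwa [Set.eq_univ_of_forall (s := Inside _ _)
      fun a => ⟨Set.subset_univ _, Set.subset_univ _⟩, mk_univ] at this
  have hFin : #(Finset (Atom (ℕ × T) J)) ≤ succ (succ μ) :=
    (mk_le_of_surjective List.toFinset_surjective).trans
      ((mk_list_le_max _).trans (max_le h2 hAt))
  obtain ⟨c⟩ := (le_def (V (ℕ × T) × Bool × ℕ × T) T).1 (by
    simp only [mk_prod, lift_id, hT]
    exact mul_le_of_le h1 hI (mul_le_of_le h1 (mk_le_aleph0.trans h1)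
      (mul_le_of_le h1 (mk_le_aleph0.trans h1) le_rfl)))
  obtain ⟨G, hG⟩ := exists_ad h0 (W := V (ℕ × T) × Bool × ℕ) (by
    simp only [mk_prod, lift_id]
    exact mul_le_of_le h1 hI (mul_le_of_le h1 (mk_le_aleph0.trans h1) (mk_le_aleph0.trans h1)))
  have : Nonempty ({s : Set (ℕ × T) // s.Countable} ×
      {s : Set (Finset (Atom (ℕ × T) J) × V (ℕ × T) × V (ℕ × T)) // s.Countable}) :=
    ⟨⟨∅, Set.countable_empty⟩, ∅, Set.countable_empty⟩
  obtain ⟨β, hβ⟩ := exists_book h1 (D := {s : Set (ℕ × T) // s.Countable} ×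
      {s : Set (Finset (Atom (ℕ × T) J) × V (ℕ × T) × V (ℕ × T)) // s.Countable}) (by
    simp only [mk_prod, lift_id]
    refine mul_le_of_le h2 (mk_countable_sets h2 hp (hX.trans (le_succ _)))
      (mk_countable_sets h2 hp ?_)
    simp only [mk_prod, lift_id]
    exact mul_le_of_le h2 hFin (mul_le_of_le h2 hI2 hI2))
  let 𝒟 : Data (ℕ × T) T J := ⟨Prod.fst,
    fun w b n t => (w.support.sup Prod.fst + 1, c (w, b, n, t)),
    fun w b n t w' b' n' t' e => by
      simpa using c.injective (congrArg Prod.snd e),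
    fun w b n t g hg => Nat.lt_succ_of_le (Finset.le_sup (f := Prod.fst) hg),
    fun η l b n => G η (l, b, n), fun η => (β η).1.1, fun η => (β η).2.1⟩
  have hge : succ μ ≤ #(V (ℕ × T)) := by
    rw [← hT]
    exact mk_le_of_injective (f := fun τ : T => sg ((0 : ℕ), τ))
      fun a b e => congrArg Prod.snd (sg_injective e)
  choose lv hlv using fun n => le_mk_iff_exists_set.1 ((hcn n).trans ((le_succ μ).trans hge))
  refine ⟨𝒟.P, V (ℕ × T), inferInstance, Data.bitP, (· + ·), lv,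
    Data.cdhSys hcμ (fun η => (β η).1.2) hG
      (by rw [hT]; exact lt_succ _) (fun A0 L0 hA0 hL0 => ?_) fun F hF => ?_, Data.bitP_add,
    fun n K hK => ?_, fun n n' hn F hF => ?_⟩
  · obtain ⟨η, e, hη⟩ := hβ (⟨A0, hA0⟩, ⟨L0, hL0⟩) (⋃ x ∈ L0, ⋃ a ∈ x.1, a.cs)
      (hL0.biUnion fun x _ => x.1.countable_toSet.biUnion fun a _ => a.cs_finite.countable)
    refine ⟨η, congrArg (fun d => d.1.1) e, congrArg (fun d => d.2.1) e, fun x hx ζ u v h => ?_⟩
    exact hη ζ (Set.mem_biUnion hx (Set.mem_biUnion h (by simp [Atom.cs])))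
  · obtain ⟨η, hη⟩ := exists_notMem (c := succ μ) (by rw [hJ]; exact lt_succ _)
      (small_biUnion h1 (small_univ hI) F fun i _ => small_countable h1 (hF i))
    exact ⟨η, fun i h => hη (Set.mem_biUnion (Set.mem_univ i) h)⟩
  · by_contra hc
    push Not at hc
    exact absurd (small_mono (show lv n ⊆ K from hc) (small_countable le_rfl hK))
      (not_le.2 (hlv n ▸ aleph0_lt_cn n))
  · by_contra hc
    push Not at hc
    have h3 := small_biUnion (aleph0_lt_cn n).le (hlv n).le F
      fun j _ => small_countable (aleph0_lt_cn n).le (hF j)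
    refine absurd (small_mono (s := lv n') (fun i hi => ?_) h3)
      (not_le.2 (hlv n' ▸ cn_strictMono hn))
    obtain ⟨j, hj, h⟩ := hc i hi
    exact Set.mem_biUnion hj h

end Pool.Agent.Work.MP_3181e1_lc.Grp
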