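import Pool.Agent.Work.MP_3181e1_lc.Basic
import Mathlib.Algebra.Ring.BooleanRing
import Mathlib.LinearAlgebra.Finsupp.LinearCombination

/-! Formal sums of generators over the field with two elements, their values under an assignment
of reals to the generators, and the separation lemma. -/

namespace Pool.Agent.Work.MP_3181e1_lc.Grp

open Cardinal

abbrev V (X : Type) : Type := X →₀ Bool

variable {X : Type}

noncomputable def sg (g : X) : V X := Finsupp.single g true

noncomputable def ev (x : X → Seq) (y : V X) : Seq := Finsupp.linearCombination Bool x y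

def Sup (y : V X) (S : Set X) : Prop := ∀ g ∈ y.support, g ∈ S

theorem Sup.mono {y : V X} {S S' : Set X} (h : Sup y S) (h' : S ⊆ S') : Sup y S' :=
  fun g hg => h' (h g hg)

theorem sup_zero (S : Set X) : Sup (0 : V X) S := fun g hg => by simp at hg

theorem support_sg (g : X) : (sg g).support = {g} :=
  Finsupp.support_single _ (by decide)

theorem sup_sg {g : X} {S : Set X} : Sup (sg g) S ↔ g ∈ S := by
  simp [Sup, support_sg]

theorem sg_injective : Function.Injective (sg : X → V X) := fun a b h => by
  have := congrArg Finsupp.support h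
  rw [support_sg, support_sg] at this
  exact Finset.singleton_injective this

theorem ev_add (x : X → Seq) (y z : V X) : ev x (y + z) = ev x y + ev x z := map_add _ _ _

theorem ev_sg (x : X → Seq) (g : X) : ev x (sg g) = x g := by
  simp only [ev, sg, Finsupp.linearCombination_single]
  exact one_smul Bool (x g)

theorem ev_map {Y : Type} (x : Y → Seq) (f : X → Y) (y : V X) :
    ev x (y.mapDomain f) = ev (fun g => x (f g)) y :=
  Finsupp.linearCombination_mapDomain Bool f y

theorem map_sg {Y : Type} (f : X → Y) (g : X) : (sg g).mapDomain f = sg (f g) :=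
  Finsupp.mapDomain_single

theorem ev_apply (x : X → Seq) (y : V X) (k : ℕ) : ev x y k = ∑ g ∈ y.support, x g k := by
  simp only [ev, Finsupp.linearCombination_apply, Finsupp.sum, Finset.sum_apply]
  refine Finset.sum_congr rfl fun g hg => ?_
  have : y g = true := by
    have := Finsupp.mem_support_iff.1 hg
    revert this
    cases y g <;> simp [Bool.zero_eq_false]
  rw [this]
  exact congrFun (one_smul Bool (x g)) k

theorem ev_congr {x x' : X → Seq} {y : V X} {k : ℕ} (h : ∀ g ∈ y.support, x g k = x' g k) :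
    ev x y k = ev x' y k := by
  rw [ev_apply, ev_apply]
  exact Finset.sum_congr rfl h

theorem ev_agree {x x' : X → Seq} {y : V X} {N : ℕ} (h : ∀ g ∈ y.support, agree N (x g) (x' g)) :
    agree N (ev x y) (ev x' y) := fun k hk => ev_congr fun g hg => h g hg k hk

theorem ev_eq {x x' : X → Seq} {y : V X} (h : ∀ g ∈ y.support, x g = x' g) : ev x y = ev x' y :=
  funext fun k => ev_congr fun g hg => congrFun (h g hg) k

theorem ev_false {x : X → Seq} {y : V X} {k : ℕ} (h : ∀ g ∈ y.support, x g k = false) :
    ev x y k = false := by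
  rw [ev_apply]
  exact Finset.sum_eq_zero h

theorem ev_true {x : X → Seq} {y : V X} {k : ℕ} {g : X} (hg : g ∈ y.support) (h1 : x g k = true)
    (h : ∀ g' ∈ y.support, g' ≠ g → x g' k = false) : ev x y k = true := by
  rw [ev_apply, Finset.sum_eq_single_of_mem g hg h, h1]

theorem map_eq_self {π : X → X} {S : Set X} (h : ∀ g ∈ S, π g = g) {y : V X} (hy : Sup y S) :
    y.mapDomain π = y := by
  rw [Finsupp.mapDomain_congr (g := id) fun g hg => h g (hy g hg), Finsupp.mapDomain_id]

theorem add_ne_zero_of_ne {y z : V X} (h : y ≠ z) : y + z ≠ 0 := fun e => h (by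
  ext g
  have := DFunLike.congr_fun e g
  simp only [Finsupp.add_apply, Finsupp.zero_apply, Bool.add_eq_xor, Bool.zero_eq_false] at this
  revert this
  cases y g <;> cases z g <;> simp)

theorem small_vec {μ : Cardinal.{0}} (hμ : ℵ₀ ≤ μ) {S : Set X} (hS : #S ≤ μ) :
    #{y : V X | Sup y S} ≤ μ := by
  classical
  refine small_mono (t := (fun l : List X => (l.map sg).sum) '' {l | ∀ x ∈ l, x ∈ S}) ?_
    (small_image _ (small_lists hμ hS))
  intro y hy
  refine ⟨y.support.toList, fun g hg => hy g (Finset.mem_toList.1 hg), ?_⟩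
  simp only [Finset.sum_map_toList]
  conv_rhs => rw [← Finsupp.sum_single y]
  refine Finset.sum_congr rfl fun g hg => ?_
  have : y g = true := by
    have := Finsupp.mem_support_iff.1 hg
    revert this
    cases y g <;> simp [Bool.zero_eq_false]
  rw [this]; rfl

/-- Recursion along the parent relation. -/
theorem exists_rec (lev : X → ℕ) (par : X → V X)
    (hpar : ∀ i, ∀ g ∈ (par i).support, lev g < lev i) (f : X → Seq → Seq) :
    ∃ t : X → Seq, ∀ i, t i = f i (ev t (par i)) := by
  classical
  let F : ∀ i : X, (∀ g, lev g < lev i → Seq) → Seq := fun i r =>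
    f i (ev (fun g => if h : lev g < lev i then r g h else 0) (par i))
  let t : X → Seq := (InvImage.wf lev wellFounded_lt).fix F
  refine ⟨t, fun i => ?_⟩
  have : t i = F i fun g _ => t g := (InvImage.wf lev wellFounded_lt).fix_eq F i
  rw [this]
  simp only [F]
  congr 1
  exact ev_eq fun g hg => dif_pos (hpar i g hg)

/-- A perturbation above level `N` that vanishes on `S`, detects every vector not supported in `S`
and starts at the same level for a generator and for its parent. -/
theorem exists_delta (lev : X → ℕ) (par : X → V X)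
    (hpar : ∀ i, ∀ g ∈ (par i).support, lev g < lev i) (S : Set X) {F : Set X} (hF : F.Finite)
    (N : ℕ) : ∃ (δ : X → Seq) (M : ℕ), (∀ g, ∀ k < N, δ g k = false) ∧
      (∀ g ∈ S, ∀ k, δ g k = false) ∧
      (∀ y : V X, Sup y F → ¬ Sup y S → ∃ k < M, ev δ y k = true) ∧
      ∀ i ∈ F, i ∉ S → Sup (par i) F → ¬ Sup (par i) S →
        ∀ k, (∀ j < k, δ i j = false) ↔ ∀ j < k, ev δ (par i) j = false := by
  classical
  obtain ⟨idx, hidx⟩ := Set.countable_iff_exists_injOn.1 hF.countable
  obtain ⟨m0, hm0⟩ := (hF.image idx).bddAbove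
  have hm : ∀ g ∈ F, idx g < m0 + 1 := fun g hg =>
    Nat.lt_succ_of_le (hm0 (Set.mem_image_of_mem _ hg))
  let pr : X → ℕ := fun g => N + (lev g * (m0 + 1) + idx g)
  have hlt : ∀ g ∈ F, ∀ i, lev g < lev i → pr g < pr i := by
    intro g hg i h
    have h1 := hm g hg
    have h2 : (lev g + 1) * (m0 + 1) ≤ lev i * (m0 + 1) := Nat.mul_le_mul_right _ h
    rw [Nat.add_mul, Nat.one_mul] at h2
    simp only [pr]
    omega
  have hinj : ∀ g ∈ F, ∀ g' ∈ F, pr g = pr g' → g = g' := by
    intro g hg g' hg' h
    rcases lt_trichotomy (lev g) (lev g') with h1 | h1 | h1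
    · exact absurd h (hlt g hg g' h1).ne
    · refine hidx hg hg' ?_
      simp only [pr, h1] at h
      omega
    · exact absurd h (hlt g' hg' g h1).ne'
  obtain ⟨δ, hδ⟩ := exists_rec lev par hpar fun i a k =>
    if i ∈ F ∧ i ∉ S then (if k = pr i then true else a k) else false
  have ha : ∀ n i, lev i = n → ∀ k, δ i k = true → i ∈ F ∧ i ∉ S ∧ N ≤ k ∧ k ≤ pr i := by
    intro n
    induction n using Nat.strong_induction_on with
    | _ n ih =>
      intro i hi k hk
      rw [hδ] at hk
      by_cases c : i ∈ F ∧ i ∉ S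
      · simp only [if_pos c] at hk
        refine ⟨c.1, c.2, ?_⟩
        by_cases c2 : k = pr i
        · exact ⟨by rw [c2]; exact Nat.le_add_right _ _, c2.le⟩
        · rw [if_neg c2] at hk
          by_contra hc
          refine absurd hk (by
            rw [ev_false fun g hg => ?_]
            · decide
            by_contra h1
            obtain ⟨a1, -, a3, a4⟩ := ih (lev g) (hi ▸ hpar i g hg) g rfl k (by simpa using h1)
            exact hc ⟨a3, a4.trans (hlt g a1 i (hpar i g hg)).le⟩)
      · simp only [if_neg c] at hk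
        cases hk
  have ha' : ∀ i k, δ i k = true → i ∈ F ∧ i ∉ S ∧ N ≤ k ∧ k ≤ pr i := fun i => ha _ i rfl
  have hb : ∀ i ∈ F, i ∉ S → δ i (pr i) = true := fun i h1 h2 => by
    rw [hδ]; simp [h1, h2]
  have hc : ∀ y : V X, Sup y F → ¬ Sup y S → ∃ g ∈ y.support, ev δ y (pr g) = true := by
    intro y h1 h2
    have hne : (y.support.filter fun g => g ∉ S).Nonempty := by
      by_contra hn
      refine h2 fun g hg => by_contra fun h3 => hn ⟨g, Finset.mem_filter.2 ⟨hg, h3⟩⟩
    obtain ⟨g, hg, hmax⟩ := Finset.exists_max_image _ pr hne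
    obtain ⟨hg1, hg2⟩ := Finset.mem_filter.1 hg
    refine ⟨g, hg1, ev_true hg1 (hb g (h1 g hg1) hg2) fun g' hg' hne' => ?_⟩
    by_contra h3
    obtain ⟨a1, a2, -, a4⟩ := ha' g' _ (by simpa using h3)
    exact hne' (hinj g' a1 g (h1 g hg1)
      (le_antisymm (hmax g' (Finset.mem_filter.2 ⟨hg', a2⟩)) a4))
  obtain ⟨M, hM⟩ := (hF.image pr).bddAbove
  refine ⟨δ, M + 1, fun g k hk => ?_, fun g hg k => ?_, fun y h1 h2 => ?_,
    fun i h1 h2 h3 h4 k => ?_⟩
  · by_contra h
    have := (ha' g k (by simpa using h)).2.2.1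
    omega
  · by_contra h
    exact (ha' g k (by simpa using h)).2.1 hg
  · obtain ⟨g, hg, h⟩ := hc y h1 h2
    exact ⟨pr g, Nat.lt_succ_of_le (hM (Set.mem_image_of_mem _ (h1 g hg))), h⟩
  · have hv : ∀ j, j ≠ pr i → δ i j = ev δ (par i) j := fun j hj => by
      rw [hδ]; simp [h1, h2, hj]
    obtain ⟨g, hg, h⟩ := hc _ h3 h4
    have hgi := hlt g (h3 g hg) i (hpar i g hg)
    rcases le_or_gt k (pr i) with hk | hk
    · exact forall₂_congr fun j hj => by rw [hv j (by omega)]
    · refine iff_of_false (fun h5 => ?_) fun h5 => ?_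
      · have := h5 _ hk
        rw [hb i h1 h2] at this
        cases this
      · have := h5 (pr g) (by omega)
        rw [h] at this
        cases this

/-- Replace an assignment above level `N`. -/
def glue (N : ℕ) (t δ : X → Seq) : X → Seq := fun g k => if k < N then t g k else δ g k

theorem glue_agree (N : ℕ) (t δ : X → Seq) (g : X) : agree N (glue N t δ g) (t g) :=
  fun _ hk => if_pos hk

theorem ev_glue_lt {N k : ℕ} (t δ : X → Seq) (y : V X) (hk : k < N) :
    ev (glue N t δ) y k = ev t y k := ev_congr fun _ _ => if_pos hk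

theorem ev_glue_ge {N k : ℕ} (t δ : X → Seq) (y : V X) (hk : ¬ k < N) :
    ev (glue N t δ) y k = ev δ y k := ev_congr fun _ _ => if_neg hk

/-- Separating all vectors supported in a finite set. -/
theorem sep_points (x0 : X → Seq) (N : ℕ) {F : Set X} (hF : F.Finite) :
    ∃ (x1 : X → Seq) (M : ℕ), (∀ g, agree N (x1 g) (x0 g)) ∧
      ∀ y u : V X, Sup y F → Sup u F → y ≠ u → ¬ agree M (ev x1 y) (ev x1 u) := by
  classical
  obtain ⟨δ, M, h1, -, h3, -⟩ := exists_delta (fun _ : X => 0) (fun _ => 0) (by simp) ∅ hF N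
  refine ⟨glue N x0 δ, M, glue_agree N x0 δ, fun y u hy hu hne hag => ?_⟩
  obtain ⟨k, hk, h⟩ := h3 (y + u)
    (fun g hg => (Finset.mem_union.1 (Finsupp.support_add hg)).elim (hy g) (hu g))
    (fun hs => add_ne_zero_of_ne hne (Finsupp.support_eq_empty.1
      (Finset.eq_empty_of_forall_notMem fun g hg => hs g hg)))
  have hkN : ¬ k < N := fun hlt => by
    rw [ev_false fun g _ => h1 g k hlt] at h
    cases h
  have := hag k hk
  rw [ev_glue_ge _ _ _ hkN, ev_glue_ge _ _ _ hkN] at this
  rw [ev_add, Pi.add_apply, this, Bool.add_eq_xor, Bool.xor_self] at h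
  cases h

/-- Gluing keeps a pair of pairs isometric and separates it. -/
theorem wi_glue {N : ℕ} {t δ : X → Seq} (hδ : ∀ g, ∀ k < N, δ g k = false) {y z y' z' : V X}
    (hy' : ∀ k, ev δ y' k = false) (hz' : ∀ k, ev δ z' k = false)
    (hyz : ∀ k, (∀ j < k, ev δ y j = false) ↔ ∀ j < k, ev δ z j = false)
    (h : WI (ev t y) (ev t z) (ev t y') (ev t z')) :
    WI (ev (glue N t δ) y) (ev (glue N t δ) z) (ev (glue N t δ) y') (ev (glue N t δ) z') := by
  have key : ∀ (a a' : V X), (∀ k, ev δ a' k = false) → ∀ k,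
      agree k (ev (glue N t δ) a) (ev (glue N t δ) a') ↔
        agree (min k N) (ev t a) (ev t a') ∧ ∀ j < k, ev δ a j = false := by
    intro a a' ha' k
    constructor
    · intro h1
      refine ⟨fun j hj => ?_, fun j hj => ?_⟩
      · have := h1 j (by omega)
        rwa [ev_glue_lt _ _ _ (by omega), ev_glue_lt _ _ _ (by omega)] at this
      · by_cases c : j < N
        · exact ev_false fun g _ => hδ g j c
        · have := h1 j hj
          rwa [ev_glue_ge _ _ _ c, ev_glue_ge _ _ _ c, ha'] at this
    · rintro ⟨h1, h2⟩ j hj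
      by_cases c : j < N
      · rw [ev_glue_lt _ _ _ c, ev_glue_lt _ _ _ c]
        exact h1 j (by omega)
      · rw [ev_glue_ge _ _ _ c, ev_glue_ge _ _ _ c, ha', h2 j hj]
  intro k
  rw [key y y' hy', key z z' hz', h (min k N), hyz k]

end Pool.Agent.Work.MP_3181e1_lc.Grp
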